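import Pool.Agent.Helper8.RGL.Defs

/-!
Closure properties of the class.
-/

namespace Pool.Agent.Helper8.RGL

open MvPolynomial

variable {w n ℓ : ℕ}

theorem reg_comm' (s t : ℕ) : reg s t = reg t s := by
  unfold reg
  by_cases h : s = t
  · subst h; rfl
  · rw [if_neg h, if_neg (Ne.symm h), max_comm]

theorem reg_mono' {s t s' t' : ℕ} (h : s ≤ s') (h' : t ≤ t') : reg s t ≤ reg s' t' := by
  unfold reg
  split_ifs <;> omega

theorem reg_succ_succ (s t : ℕ) : reg (s + 1) (t + 1) = reg s t + 1 := by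
  unfold reg
  by_cases h : s = t
  · subst h; simp
  · rw [if_neg (by omega), if_neg h]; omega

theorem reg_zero_succ (s : ℕ) : reg 0 (s + 1) = s + 1 := by
  unfold reg
  rw [if_neg (by omega)]
  omega

theorem reg_succ_self (s : ℕ) : reg s (s + 1) = s + 1 := by
  unfold reg
  rw [if_neg (by omega)]
  omega

theorem Tree.cast {p p' : Fin w → MvPolynomial (Fin n) ℚ} {r r' : Fin n → ℕ} {s s' : ℕ}
    (h : Tree (ℓ + 1) w n p r s) (hp : p' = p) (hr : r' = r) (hs : s' = s) : Tree (ℓ + 1) w n p' r' s' := by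
  rw [hp, hr, hs]; exact h

/-- a linear map applied to the output -/
theorem Tree.lin {p : Fin w → MvPolynomial (Fin n) ℚ} {r : Fin n → ℕ}
    {s : ℕ} (h : Tree (ℓ + 1) w n p r s) (A : Fin w → Fin w → ℚ) :
    Tree (ℓ + 1) w n (fun a => ∑ b, C (A a b) * p b) r s := by
  have := Tree.affine A 0 h
  simpa using this

/-- padding with zeros -/
theorem tree_pad {w W : ℕ} (hwW : w ≤ W) {p : Fin w → MvPolynomial (Fin n) ℚ}
    {r : Fin n → ℕ} {s : ℕ} (h : Tree (ℓ + 1) w n p r s) :
    Tree (ℓ + 1) W n (fun a => if h : a.val < w then p ⟨a, h⟩ else 0) r s := by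
  classical
  have key : ∀ G : Fin w → MvPolynomial (Fin n) ℚ,
      ∑ b : Fin w, G b = ∑ b : Fin W, if h : b.val < w then G ⟨b, h⟩ else 0 := by
    intro G
    have h2 : ∑ b : Fin w, G b = ∑ b : Fin w,
        (fun b : Fin W => if h : b.val < w then G ⟨b, h⟩ else 0) (Fin.castLE hwW b) := by
      apply Finset.sum_congr rfl
      intro b _
      simp
    rw [h2]
    have h3 := Finset.sum_map Finset.univ (Fin.castLEEmb hwW)
      (fun b : Fin W => if h : b.val < w then G ⟨b, h⟩ else 0)
    refine Eq.trans h3.symm ?_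
    apply Finset.sum_subset (Finset.subset_univ _)
    intro b _ hb
    rw [dif_neg]
    intro hlt
    apply hb
    rw [Finset.mem_map]
    exact ⟨⟨b, hlt⟩, Finset.mem_univ _, rfl⟩
  induction h with
  | const v =>
    have h1 := Tree.const (l := ℓ + 1) (n := n)
      (fun a : Fin W => if h : a.val < w then v ⟨a, h⟩ else 0)
    convert h1 using 2 with a
    split_ifs <;> simp
  | leaf S hS F hF =>
    exact Tree.leaf S hS (fun a : Fin W => if h : a.val < w then F ⟨a, h⟩ else 0) (by
      intro a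
      split_ifs
      · exact hF _
      · simp)
  | @once f S h =>
    rcases Nat.eq_zero_or_pos W with hW | hW
    · subst hW
      exact (Tree.once h).cast (Subsingleton.elim _ _) rfl rfl
    · have h1 := Tree.affine (fun a b : Fin W => if a.val < w then (if b = ⟨0, hW⟩ then 1 else 0)
        else 0) 0 (Tree.once (l := ℓ + 1) (w := W) h)
      refine h1.cast ?_ rfl rfl
      funext a
      rw [Finset.sum_eq_single (⟨0, hW⟩ : Fin W)]
      · by_cases ha : a.val < w
        · simp [ha]
        · simp [ha]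
      · intro b _ hb; simp [hb]
      · intro h; exact absurd (Finset.mem_univ _) h
  | @affine M v p r s _ ih =>
    have h1 := Tree.affine (fun a b : Fin W => if h : a.val < w ∧ b.val < w then
      M ⟨a, h.1⟩ ⟨b, h.2⟩ else 0) (fun a : Fin W => if h : a.val < w then v ⟨a, h⟩ else 0) ih
    refine h1.cast ?_ rfl rfl
    funext a
    by_cases ha : a.val < w
    · simp only [ha, dif_pos, true_and]
      rw [key]
      congr 1
      apply Finset.sum_congr rfl
      intro b _
      by_cases hb : b.val < w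
      · simp [hb]
      · simp [hb]
    · simp [ha]
  | add _ _ hp hq =>
    refine (Tree.add hp hq).cast ?_ rfl rfl
    funext a
    simp only [Pi.add_apply]
    split_ifs <;> simp
  | @gate B p q r r' s s' _ _ hp hq =>
    have h1 := Tree.gate (fun a b c : Fin W =>
      if h : a.val < w ∧ b.val < w ∧ c.val < w then
        B ⟨a, h.1⟩ ⟨b, h.2.1⟩ ⟨c, h.2.2⟩ else 0) hp hq
    refine h1.cast ?_ rfl rfl
    funext a
    by_cases ha : a.val < w
    · rw [dif_pos ha]
      change (∑ b, ∑ c, C (B ⟨a.val, ha⟩ b c) * p b * q c) = _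
      rw [key]
      apply Finset.sum_congr rfl
      intro b _
      by_cases hb : b.val < w
      · rw [dif_pos hb, key]
        apply Finset.sum_congr rfl
        intro c _
        by_cases hc : c.val < w
        · simp [ha, hb, hc]
        · simp [hc]
      · rw [dif_neg hb]
        symm
        apply Finset.sum_eq_zero
        intro c _
        simp [hb]
    · rw [dif_neg ha]
      symm
      apply Finset.sum_eq_zero
      intro b _
      apply Finset.sum_eq_zero
      intro c _
      simp [ha]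

/-- the reads of a block -/
def ind (S : Finset (Fin n)) : Fin n → ℕ := fun i => if i ∈ S then 1 else 0

theorem ind_empty : ind (∅ : Finset (Fin n)) = 0 := by
  funext i; simp [ind]

theorem ind_singleton (i : Fin n) : ind {i} = Pi.single i 1 := by
  funext j
  unfold ind
  by_cases h : j = i
  · subst h; simp
  · rw [Pi.single_eq_of_ne h, if_neg]
    rwa [Finset.mem_singleton]

theorem ind_union {S T : Finset (Fin n)} (h : Disjoint S T) : ind (S ∪ T) = ind S + ind T := by
  funext i
  unfold ind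
  rw [Pi.add_apply]
  by_cases h1 : i ∈ S
  · have h2 : i ∉ T := Finset.disjoint_left.1 h h1
    simp [h1, h2]
  · simp [h1]

theorem vars_aeval_X (i : Fin n) (F : Polynomial ℚ) :
    (Polynomial.aeval (X i : MvPolynomial (Fin n) ℚ) F).vars ⊆ {i} := by
  have h : Polynomial.aeval (X i : MvPolynomial (Fin n) ℚ) F ∈
      supported ℚ (({i} : Finset (Fin n)) : Set (Fin n)) := by
    have h1 : (X i : MvPolynomial (Fin n) ℚ) ∈ supported ℚ (({i} : Finset (Fin n)) : Set (Fin n)) :=
      X_mem_supported.2 (by simp)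
    exact (Algebra.adjoin_le (Set.singleton_subset_iff.mpr h1))
      (Polynomial.aeval_mem_adjoin_singleton ℚ _)
  rw [mem_supported] at h
  exact_mod_cast h

theorem vars_pderiv' (j : Fin n) {f : MvPolynomial (Fin n) ℚ} {S : Finset (Fin n)}
    (h : f.vars ⊆ S) : (pderiv j f).vars ⊆ S := by
  have h1 : f ∈ supported ℚ (S : Set (Fin n)) := by
    rw [mem_supported]; exact_mod_cast h
  clear h
  have h2 : pderiv j f ∈ supported ℚ (S : Set (Fin n)) := by
    rw [supported_eq_adjoin_X] at h1 ⊢
    induction h1 using Algebra.adjoin_induction with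
    | mem x hx =>
      obtain ⟨i, _, rfl⟩ := hx
      rw [pderiv_X]
      by_cases hij : i = j
      · subst hij; simp
      · rw [Pi.single_eq_of_ne hij]; exact Subalgebra.zero_mem _
    | algebraMap r => rw [algebraMap_eq, pderiv_C]; exact Subalgebra.zero_mem _
    | add x y _ _ hx hy => rw [map_add]; exact Subalgebra.add_mem _ hx hy
    | mul x y hx' hy' hx hy =>
      rw [Derivation.leibniz]
      exact Subalgebra.add_mem _ (Subalgebra.mul_mem _ hx' hy) (Subalgebra.mul_mem _ hy' hx)
  rw [mem_supported] at h2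
  exact_mod_cast h2

/-- the first order jet -/
noncomputable def jet (j : Fin n) (p : Fin w → MvPolynomial (Fin n) ℚ) :
    Fin (w + w) → MvPolynomial (Fin n) ℚ := Fin.append p (fun a => pderiv j (p a))

theorem jet_leaf (j : Fin n) (S : Finset (Fin n)) (hS : S.card ≤ (ℓ + 1))
    (F : Fin w → MvPolynomial (Fin n) ℚ) (hF : ∀ a, (F a).vars ⊆ S) :
    Tree (ℓ + 1) (w + w) n (jet j F) (fun i => if i ∈ S then 1 else 0) 0 := by
  refine Tree.leaf S hS _ fun a => ?_
  unfold jet
  refine Fin.addCases (fun a => ?_) (fun a => ?_) a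
  · rw [Fin.append_left]; exact hF a
  · rw [Fin.append_right]; exact vars_pderiv' j (hF a)

theorem jet_leaf_one (j i : Fin n) (F : Fin w → Polynomial ℚ) :
    Tree (ℓ + 1) (w + w) n (jet j fun a => Polynomial.aeval (X i) (F a)) (ind {i}) 0 :=
  jet_leaf j {i} (by rw [Finset.card_singleton]; omega) _ fun a => vars_aeval_X i (F a)

theorem jet_const (j : Fin n) (v : Fin w → ℚ) :
    Tree (ℓ + 1) (w + w) n (jet j fun a => C (v a)) 0 0 := by
  have h1 := Tree.const (l := ℓ + 1) (n := n) (Fin.append v (fun _ : Fin w => (0 : ℚ)))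
  refine h1.cast ?_ rfl rfl
  funext a
  unfold jet
  refine Fin.addCases (fun a => ?_) (fun a => ?_) a
  · rw [Fin.append_left, Fin.append_left]
  · rw [Fin.append_right, Fin.append_right]; simp

theorem jet_add (j : Fin n) {p q : Fin w → MvPolynomial (Fin n) ℚ} {r r' : Fin n → ℕ} {s s' : ℕ}
    (hp : Tree (ℓ + 1) (w + w) n (jet j p) r s) (hq : Tree (ℓ + 1) (w + w) n (jet j q) r' s') :
    Tree (ℓ + 1) (w + w) n (jet j (p + q)) (r + r') (reg s s') := by
  refine (Tree.add hp hq).cast ?_ rfl rfl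
  funext a
  unfold jet
  rw [Pi.add_apply]
  refine Fin.addCases (fun a => ?_) (fun a => ?_) a
  · rw [Fin.append_left, Fin.append_left, Fin.append_left, Pi.add_apply]
  · rw [Fin.append_right, Fin.append_right, Fin.append_right, Pi.add_apply, map_add]

theorem jet_gate (j : Fin n) (B : Fin w → Fin w → Fin w → ℚ)
    {p q : Fin w → MvPolynomial (Fin n) ℚ} {r r' : Fin n → ℕ} {s s' : ℕ}
    (hp : Tree (ℓ + 1) (w + w) n (jet j p) r s) (hq : Tree (ℓ + 1) (w + w) n (jet j q) r' s') :
    Tree (ℓ + 1) (w + w) n (jet j fun a => ∑ b, ∑ c, C (B a b c) * p b * q c) (r + r') (reg s s') := by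
  have h1 := Tree.gate (fun a b c : Fin (w + w) =>
    Fin.addCases (motive := fun _ => ℚ)
      (fun a => Fin.addCases (motive := fun _ => ℚ)
        (fun b => Fin.addCases (motive := fun _ => ℚ) (fun c => B a b c) (fun _ => 0) c)
        (fun _ => 0) b)
      (fun a => Fin.addCases (motive := fun _ => ℚ)
        (fun b => Fin.addCases (motive := fun _ => ℚ) (fun _ => 0) (fun c => B a b c) c)
        (fun b => Fin.addCases (motive := fun _ => ℚ) (fun c => B a b c) (fun _ => 0) c) b) a)
    hp hq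
  refine h1.cast ?_ rfl rfl
  funext a
  unfold jet
  refine Fin.addCases (fun a => ?_) (fun a => ?_) a
  · rw [Fin.append_left, Fin.sum_univ_add]
    simp only [Fin.append_left, Fin.append_right, Fin.addCases_left, Fin.addCases_right,
      C_0, zero_mul, Finset.sum_const_zero, add_zero, Fin.sum_univ_add]
  · rw [Fin.append_right, Fin.sum_univ_add]
    simp only [Fin.append_left, Fin.append_right, Fin.addCases_left, Fin.addCases_right,
      C_0, zero_mul, Finset.sum_const_zero, add_zero, zero_add, Fin.sum_univ_add]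
    rw [map_sum, ← Finset.sum_add_distrib]
    apply Finset.sum_congr rfl
    intro b _
    rw [map_sum, ← Finset.sum_add_distrib]
    apply Finset.sum_congr rfl
    intro c _
    rw [Derivation.leibniz, Derivation.leibniz, pderiv_C]
    simp only [smul_eq_mul]
    ring

theorem jet_affine (j : Fin n) (M : Fin w → Fin w → ℚ) (v : Fin w → ℚ)
    {p : Fin w → MvPolynomial (Fin n) ℚ} {r : Fin n → ℕ} {s : ℕ}
    (hp : Tree (ℓ + 1) (w + w) n (jet j p) r s) :
    Tree (ℓ + 1) (w + w) n (jet j fun a => ∑ b, C (M a b) * p b + C (v a)) r s := by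
  have h1 := Tree.affine (fun a b : Fin (w + w) =>
    Fin.addCases (motive := fun _ => ℚ)
      (fun a => Fin.addCases (motive := fun _ => ℚ) (fun b => M a b) (fun _ => 0) b)
      (fun a => Fin.addCases (motive := fun _ => ℚ) (fun _ => 0) (fun b => M a b) b) a)
    (Fin.append v 0) hp
  refine h1.cast ?_ rfl rfl
  funext a
  unfold jet
  refine Fin.addCases (fun a => ?_) (fun a => ?_) a
  · rw [Fin.append_left, Fin.sum_univ_add]
    simp only [Fin.append_left, Fin.append_right, Fin.addCases_left, Fin.addCases_right,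
      C_0, zero_mul, Finset.sum_const_zero, add_zero]
  · rw [Fin.append_right, Fin.sum_univ_add]
    simp only [Fin.append_left, Fin.append_right, Fin.addCases_left, Fin.addCases_right,
      C_0, zero_mul, Finset.sum_const_zero, add_zero, zero_add, Pi.zero_apply]
    rw [map_add, map_sum, pderiv_C, add_zero]
    apply Finset.sum_congr rfl
    intro b _
    rw [Derivation.leibniz, pderiv_C]
    simp only [smul_eq_mul]
    ring

theorem ReadOnce.pderiv_eq_zero {f : MvPolynomial (Fin n) ℚ} {S : Finset (Fin n)}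
    (h : ReadOnce f S) {j : Fin n} (hj : j ∉ S) : pderiv j f = 0 := by
  induction h with
  | const c => simp
  | leaf i F =>
    have hij : i ≠ j := by rintro rfl; exact hj (Finset.mem_singleton_self _)
    induction F using Polynomial.induction_on' with
    | add P Q hP hQ => rw [map_add, map_add, hP, hQ, add_zero]
    | monomial m c =>
      rw [Polynomial.aeval_monomial, Derivation.leibniz, Derivation.leibniz_pow,
        pderiv_X_of_ne hij]
      simp [MvPolynomial.algebraMap_eq]
  | add _ _ _ ih1 ih2 =>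
    rw [Finset.mem_union, not_or] at hj
    rw [map_add, ih1 hj.1, ih2 hj.2, add_zero]
  | mul _ _ _ ih1 ih2 =>
    rw [Finset.mem_union, not_or] at hj
    rw [Derivation.leibniz, ih1 hj.1, ih2 hj.2]
    simp

/-- the jet of a block which does not read the variable -/
theorem jet_once_zero (w : ℕ) {f : MvPolynomial (Fin n) ℚ} {S : Finset (Fin n)}
    (h : ReadOnce f S) {j : Fin n} (hj : j ∉ S) :
    Tree (ℓ + 1) (w + w) n (jet j fun _ : Fin w => f) (ind S) 0 := by
  rcases Nat.eq_zero_or_pos w with hw | hw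
  · subst hw
    exact (Tree.once h).cast (funext fun a => absurd a.isLt (by omega)) rfl rfl
  · have h1 := Tree.affine (fun a b : Fin (w + w) => if a.val < w then
      (if b = ⟨0, by omega⟩ then 1 else 0) else 0) 0 (Tree.once (l := ℓ + 1) (w := w + w) h)
    refine h1.cast ?_ rfl rfl
    funext a
    rw [Finset.sum_eq_single (⟨0, by omega⟩ : Fin (w + w))]
    · unfold jet
      refine Fin.addCases (fun a => ?_) (fun a => ?_) a
      · rw [Fin.append_left]; simp
      · rw [Fin.append_right, h.pderiv_eq_zero hj]; simp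
    · intro b _ hb; simp [hb]
    · intro h; exact absurd (Finset.mem_univ _) h

/-- the jet of a block has register number at most `1` -/
theorem jet_once (w : ℕ) (j : Fin n) {f : MvPolynomial (Fin n) ℚ} {S : Finset (Fin n)}
    (h : ReadOnce f S) : ∃ s ≤ 1, Tree (ℓ + 1) (w + w) n (jet j fun _ : Fin w => f) (ind S) s := by
  classical
  induction h with
  | const c =>
    exact ⟨0, Nat.zero_le _, (jet_const j fun _ : Fin w => c).cast rfl ind_empty rfl⟩
  | leaf i F =>
    exact ⟨0, Nat.zero_le _, jet_leaf_one j i fun _ : Fin w => F⟩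
  | @add f g S T hd hf hg ih1 ih2 =>
    have h3 : ∃ s ≤ 1, ∃ s' ≤ 1, reg s s' ≤ 1 ∧ Tree (ℓ + 1) (w + w) n (jet j fun _ : Fin w => f) (ind S) s
        ∧ Tree (ℓ + 1) (w + w) n (jet j fun _ : Fin w => g) (ind T) s' := by
      by_cases hj : j ∈ S
      · obtain ⟨s, hs, h1⟩ := ih1
        exact ⟨s, hs, 0, Nat.zero_le _, by unfold reg; split_ifs <;> omega, h1,
          jet_once_zero w hg (Finset.disjoint_left.1 hd hj)⟩
      · obtain ⟨s, hs, h1⟩ := ih2
        exact ⟨0, Nat.zero_le _, s, hs, by unfold reg; split_ifs <;> omega,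
          jet_once_zero w hf hj, h1⟩
    obtain ⟨s, _, s', _, h4, h5, h6⟩ := h3
    exact ⟨_, h4, (jet_add j h5 h6).cast rfl (ind_union hd) rfl⟩
  | @mul f g S T hd hf hg ih1 ih2 =>
    have h3 : ∃ s ≤ 1, ∃ s' ≤ 1, reg s s' ≤ 1 ∧ Tree (ℓ + 1) (w + w) n (jet j fun _ : Fin w => f) (ind S) s
        ∧ Tree (ℓ + 1) (w + w) n (jet j fun _ : Fin w => g) (ind T) s' := by
      by_cases hj : j ∈ S
      · obtain ⟨s, hs, h1⟩ := ih1
        exact ⟨s, hs, 0, Nat.zero_le _, by unfold reg; split_ifs <;> omega, h1,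
          jet_once_zero w hg (Finset.disjoint_left.1 hd hj)⟩
      · obtain ⟨s, hs, h1⟩ := ih2
        exact ⟨0, Nat.zero_le _, s, hs, by unfold reg; split_ifs <;> omega,
          jet_once_zero w hf hj, h1⟩
    obtain ⟨s, _, s', _, h4, h5, h6⟩ := h3
    refine ⟨_, h4, (jet_gate j (fun a b c : Fin w => if b = a then (if c = a then 1 else 0) else 0)
      h5 h6).cast ?_ (ind_union hd) rfl⟩
    congr 1
    funext a
    rw [Finset.sum_eq_single a, Finset.sum_eq_single a]
    · simp
    · intro c _ hc; simp [hc]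
    · intro h; exact absurd (Finset.mem_univ _) h
    · intro b _ hb; simp [hb]
    · intro h; exact absurd (Finset.mem_univ _) h

/-- first order jets: the derivative is computed along, in twice the width -/
theorem tree_jet (j : Fin n) {p : Fin w → MvPolynomial (Fin n) ℚ} {r : Fin n → ℕ} {s : ℕ}
    (h : Tree (ℓ + 1) w n p r s) : ∃ s' ≤ s + 1, Tree (ℓ + 1) (w + w) n (jet j p) r s' := by
  classical
  induction h with
  | const v => exact ⟨0, Nat.zero_le _, jet_const j v⟩
  | leaf S hS F hF => exact ⟨0, Nat.zero_le _, jet_leaf j S hS F hF⟩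
  | once h => exact jet_once w j h
  | affine M v _ ih =>
    obtain ⟨s', hs, h1⟩ := ih
    exact ⟨s', hs, jet_affine j M v h1⟩
  | add _ _ ih1 ih2 =>
    obtain ⟨s1, hs1, h1⟩ := ih1
    obtain ⟨s2, hs2, h2⟩ := ih2
    exact ⟨_, by rw [← reg_succ_succ]; exact reg_mono' hs1 hs2, jet_add j h1 h2⟩
  | gate B _ _ ih1 ih2 =>
    obtain ⟨s1, hs1, h1⟩ := ih1
    obtain ⟨s2, hs2, h2⟩ := ih2
    exact ⟨_, by rw [← reg_succ_succ]; exact reg_mono' hs1 hs2, jet_gate j B h1 h2⟩

theorem RG.mono {r r' s s' : ℕ} (h : r ≤ r') (hs : s ≤ s') {f : MvPolynomial (Fin n) ℚ}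
    (hf : RG (ℓ + 1) w n r s f) : RG (ℓ + 1) w n r' s' f := by
  obtain ⟨p, q, t, hp, hq, ht, a, ha⟩ := hf
  exact ⟨p, q, t, hp, fun i => (hq i).trans h, ht.trans hs, a, ha⟩

theorem RG.pad {W r s : ℕ} (h : w ≤ W) {f : MvPolynomial (Fin n) ℚ} (hf : RG (ℓ + 1) w n r s f) :
    RG (ℓ + 1) W n r s f := by
  obtain ⟨p, q, t, hp, hq, ht, a, ha⟩ := hf
  refine ⟨_, q, t, tree_pad h hp, hq, ht, Fin.castLE h a, ?_⟩
  simp [ha]

theorem RG.pderiv {r s : ℕ} {f : MvPolynomial (Fin n) ℚ} (hf : RG (ℓ + 1) w n r s f) (j : Fin n) :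
    RG (ℓ + 1) (w + w) n r (s + 1) (pderiv j f) := by
  obtain ⟨p, q, t, hp, hq, ht, a, ha⟩ := hf
  obtain ⟨t', ht', h1⟩ := tree_jet j hp
  refine ⟨_, q, t', h1, hq, ht'.trans (by omega), Fin.natAdd w a, ?_⟩
  unfold jet
  rw [Fin.append_right, ha]

theorem RG.C (hw : 0 < w) (c : ℚ) : RG (ℓ + 1) w n 0 0 (MvPolynomial.C c) :=
  ⟨_, _, _, Tree.const (fun _ => c), fun _ => le_rfl, le_rfl, ⟨0, hw⟩, rfl⟩

theorem RG.add {r r' s s' : ℕ} {f g : MvPolynomial (Fin n) ℚ} (hf : RG (ℓ + 1) w n r s f)
    (hg : RG (ℓ + 1) w n r' s' g) : RG (ℓ + 1) w n (r + r') (reg s s') (f + g) := by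
  obtain ⟨p, q, t, hp, hr, ht, a, ha⟩ := hf
  obtain ⟨p', q', t', hp', hr', ht', b, hb⟩ := hg
  have h1 := Tree.affine (fun _ c => if c = b then 1 else 0) 0 hp'
  refine ⟨_, _, _, Tree.add hp h1, fun i => Nat.add_le_add (hr i) (hr' i), reg_mono' ht ht', a, ?_⟩
  rw [Pi.add_apply, ha]
  congr 1
  rw [Finset.sum_eq_single b]
  · simp [hb]
  · intro c _ hc; simp [hc]
  · intro h; exact absurd (Finset.mem_univ _) h

theorem RG.mul {r r' s s' : ℕ} {f g : MvPolynomial (Fin n) ℚ} (hf : RG (ℓ + 1) w n r s f)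
    (hg : RG (ℓ + 1) w n r' s' g) : RG (ℓ + 1) w n (r + r') (reg s s') (f * g) := by
  classical
  obtain ⟨p, q, t, hp, hr, ht, a, ha⟩ := hf
  obtain ⟨p', q', t', hp', hr', ht', b, hb⟩ := hg
  refine ⟨_, _, _, Tree.gate (fun _ x y => if x = a then (if y = b then 1 else 0) else 0) hp hp',
    fun i => Nat.add_le_add (hr i) (hr' i), reg_mono' ht ht', a, ?_⟩
  rw [Finset.sum_eq_single a, Finset.sum_eq_single b]
  · simp [ha, hb]
  · intro c _ hc; simp [hc]
  · intro h; exact absurd (Finset.mem_univ _) h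
  · intro c _ hc
    apply Finset.sum_eq_zero
    intro y _
    simp [hc]
  · intro h; exact absurd (Finset.mem_univ _) h

theorem RG.prod (hw : 0 < w) {r s : ℕ} {ι : Type*} (S : Finset ι)
    (f : ι → MvPolynomial (Fin n) ℚ) (hf : ∀ i ∈ S, RG (ℓ + 1) w n r s (f i)) :
    RG (ℓ + 1) w n (S.card * r) (s + 1) (∏ i ∈ S, f i) := by
  classical
  induction S using Finset.induction_on with
  | empty => simpa using (RG.C (n := n) hw 1).mono (Nat.zero_le _) (Nat.zero_le (s + 1))
  | insert a S ha ih =>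
    rw [Finset.prod_insert ha, Finset.card_insert_of_notMem ha]
    refine RG.mono (by ring_nf; rfl) (reg_succ_self s).le ((hf a (Finset.mem_insert_self _ _)).mul
      (ih fun i hi => hf i (Finset.mem_insert_of_mem hi)))

theorem RG.sum (hw : 0 < w) {r s : ℕ} {ι : Type*} (S : Finset ι)
    (f : ι → MvPolynomial (Fin n) ℚ) (hf : ∀ i ∈ S, RG (ℓ + 1) w n r s (f i)) :
    RG (ℓ + 1) w n (S.card * r) (s + 1) (∑ i ∈ S, f i) := by
  classical
  induction S using Finset.induction_on with
  | empty => simpa using (RG.C (n := n) hw 0).mono (Nat.zero_le _) (Nat.zero_le (s + 1))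
  | insert a S ha ih =>
    rw [Finset.sum_insert ha, Finset.card_insert_of_notMem ha]
    refine RG.mono (by ring_nf; rfl) (reg_succ_self s).le ((hf a (Finset.mem_insert_self _ _)).add
      (ih fun i hi => hf i (Finset.mem_insert_of_mem hi)))

/-- determinants -/
theorem RG.det (hw : 0 < w) {r s M : ℕ} (A : Matrix (Fin M) (Fin M) (MvPolynomial (Fin n) ℚ))
    (hA : ∀ i j, RG (ℓ + 1) w n r s (A i j)) : RG (ℓ + 1) w n (M.factorial * (M * r)) (s + 2) A.det := by
  classical
  rw [Matrix.det_apply]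
  have h1 := RG.sum (n := n) hw (r := M * r) (s := s + 1)
    (Finset.univ : Finset (Equiv.Perm (Fin M)))
    (fun σ => Equiv.Perm.sign σ • ∏ i, A (σ i) i) (by
      intro σ _
      have h2 := RG.prod (n := n) hw (r := r) (s := s) Finset.univ (fun i => A (σ i) i)
        (fun i _ => hA _ _)
      rw [Finset.card_univ, Fintype.card_fin] at h2
      have h3 := (RG.C (n := n) hw ((Equiv.Perm.sign σ : ℤ) : ℚ)).mul h2
      rw [zero_add, reg_zero_succ] at h3
      convert h3 using 1
      rw [Units.smul_def, zsmul_eq_mul]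
      simp)
  rwa [Finset.card_univ, Fintype.card_perm, Fintype.card_fin] at h1

end Pool.Agent.Helper8.RGL
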