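import Pool.Agent.Helper8.RGL.Main
import Pool.Agent.Helper8.Loc.Defs

/-!
The hitting theorem for formulas of bounded depth and bounded occurrence over trees with local
leaves, and programs of constant width with local layers as trees of register number one.
-/

namespace Pool.Agent.Helper8.RGL

open MvPolynomial
open Pool.Agent.Helper8 Pool.Agent.Helper8.Occ

variable {w n : ℕ}

theorem Tree.mono_l {l l' : ℕ} (hl : l ≤ l') {p : Fin w → MvPolynomial (Fin n) ℚ} {r : Fin n → ℕ}
    {s : ℕ} (h : Tree l w n p r s) : Tree l' w n p r s := by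
  induction h with
  | const v => exact Tree.const v
  | leaf S hS F hF => exact Tree.leaf S (hS.trans hl) F hF
  | once h => exact Tree.once h
  | affine M v _ ih => exact Tree.affine M v ih
  | add _ _ ih1 ih2 => exact Tree.add ih1 ih2
  | gate B _ _ ih1 ih2 => exact Tree.gate B ih1 ih2

theorem RG.mono_l {l l' r s : ℕ} (hl : l ≤ l') {f : MvPolynomial (Fin n) ℚ}
    (h : RG l w n r s f) : RG l' w n r s f := by
  obtain ⟨p, q, t, hp, h⟩ := h
  exact ⟨p, q, t, hp.mono_l hl, h⟩

theorem occ_mono {κ Δ : ℕ} {L L' : MvPolynomial (Fin n) ℚ → Prop} (hL : ∀ f, L f → L' f)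
    {f : MvPolynomial (Fin n) ℚ} (h : OccFormula κ L Δ f) : OccFormula κ L' Δ f := by
  induction h with
  | leaf hf => exact OccFormula.leaf (hL _ hf)
  | sum b _ hκ ih => exact OccFormula.sum b ih hκ
  | prod b _ hκ e ih => exact OccFormula.prod b ih hκ e
  | comp b _ hm p ih => exact OccFormula.comp b ih hm p

/-- **Theorem.** -/
theorem hit {l w r s κ k Δ N m R : ℕ} (a : Fin N → ℚ)
    (g : Fin N → Fin m → MvPolynomial (Fin n) ℚ) (e : Fin N → Fin m → ℕ)
    (hg : ∀ i j, OccFormula κ (RG l w n r s) Δ (g i j))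
    (htr : ∀ b : Finset (Fin N),
      AlgebraicIndepOn ℚ (fun i => ∏ j, g i j ^ e i j) (b : Set (Fin N)) → b.card ≤ k)
    (h0 : ∑ i, C (a i) * ∏ j, g i j ^ e i j ≠ 0) (f : MvPolynomial (Fin n) ℚ)
    (hf : f ∣ ∑ i, C (a i) * ∏ j, g i j ^ e i j)
    (hR : f.totalDegree ≤ R ∨ 2 ^ (N + 1) * (n * ∑ i, ∑ j, (g i j).totalDegree) + N ≤ R) :
    ∃ x ∈ ReadKTree.points n (cR l w r κ k Δ * (min s (Nat.clog 2 n) + 1)) R, eval x f ≠ 0 :=
  hit_RG a g e (fun i j => occ_mono (fun _ h => RG.mono_l (Nat.le_succ l) h) (hg i j)) htr h0 f hf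
    hR

section Programs

open Matrix

theorem Tree.cast' {l : ℕ} {p p' : Fin w → MvPolynomial (Fin n) ℚ} {r r' : Fin n → ℕ} {s : ℕ}
    (h : Tree l w n p r s) (hp : p' = p) (hr : r' = r) : Tree l w n p' r' s := by
  rw [hp, hr]; exact h

/-- a product of matrices with local entries, as a tree -/
theorem tree_prod {w l : ℕ} : ∀ (L : List (Finset (Fin n) ×
    Matrix (Fin w) (Fin w) (MvPolynomial (Fin n) ℚ))),
    (∀ x ∈ L, x.1.card ≤ l ∧ ∀ a b, (x.2 a b).vars ⊆ x.1) →
    ∃ s ≤ 1, Tree l (w * w) n
      (fun i => (L.map Prod.snd).prod (finProdFinEquiv.symm i).1 (finProdFinEquiv.symm i).2)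
      (fun i => (L.map fun x => if i ∈ x.1 then 1 else 0).sum) s := by
  classical
  intro L
  induction L with
  | nil =>
    intro _
    refine ⟨0, Nat.zero_le _, (Tree.const (fun i => if (finProdFinEquiv.symm i).1 =
      (finProdFinEquiv.symm i).2 then 1 else 0)).cast' ?_ ?_⟩
    · funext i
      rw [List.map_nil, List.prod_nil, Matrix.one_apply]
      split_ifs <;> simp
    · funext i; simp
  | cons x L ih =>
    intro hL
    obtain ⟨s, hs, h1⟩ := ih fun y hy => hL y (List.mem_cons_of_mem _ hy)
    have hx := hL x List.mem_cons_self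
    have h2 := Tree.leaf (w := w * w) x.1 hx.1
      (fun i => x.2 (finProdFinEquiv.symm i).1 (finProdFinEquiv.symm i).2) fun i => hx.2 _ _
    refine ⟨reg 0 s, by unfold reg; split_ifs <;> omega,
      (Tree.gate (fun i j k => if (finProdFinEquiv.symm j).1 = (finProdFinEquiv.symm i).1 ∧
        (finProdFinEquiv.symm k).1 = (finProdFinEquiv.symm j).2 ∧
        (finProdFinEquiv.symm k).2 = (finProdFinEquiv.symm i).2 then 1 else 0)
        h2 h1).cast' ?_ ?_⟩
    · funext i
      rw [List.map_cons, List.prod_cons, Matrix.mul_apply]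
      symm
      rw [← finProdFinEquiv.sum_comp, Fintype.sum_prod_type]
      rw [Finset.sum_eq_single (finProdFinEquiv.symm i).1]
      · apply Finset.sum_congr rfl
        intro c _
        rw [← finProdFinEquiv.sum_comp, Fintype.sum_prod_type, Finset.sum_eq_single c,
          Finset.sum_eq_single (finProdFinEquiv.symm i).2]
        · rw [Equiv.symm_apply_apply, Equiv.symm_apply_apply, if_pos ⟨rfl, rfl, rfl⟩, C_1, one_mul]
        · intro b _ hb
          rw [Equiv.symm_apply_apply, Equiv.symm_apply_apply, if_neg (fun h => hb h.2.2), C_0,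
            zero_mul, zero_mul]
        · intro h; exact absurd (Finset.mem_univ _) h
        · intro b _ hb
          apply Finset.sum_eq_zero
          intro d _
          rw [Equiv.symm_apply_apply, Equiv.symm_apply_apply, if_neg (fun h => hb h.2.1), C_0,
            zero_mul, zero_mul]
        · intro h; exact absurd (Finset.mem_univ _) h
      · intro b _ hb
        apply Finset.sum_eq_zero
        intro c _
        apply Finset.sum_eq_zero
        intro d _
        rw [Equiv.symm_apply_apply, if_neg (fun h => hb h.1), C_0, zero_mul, zero_mul]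
      · intro h; exact absurd (Finset.mem_univ _) h
    · funext i
      rw [Pi.add_apply, List.map_cons, List.sum_cons]

/-- programs of width `w` with `l`-local layers are trees of register number one -/
theorem RG_of_computes {w k l d : ℕ} (hw : 0 < w) {f : MvPolynomial (Fin n) ℚ}
    (h : LocalABP.Computes w k l d n f) : RG l (w * w) n k 1 f := by
  classical
  obtain ⟨N, B, M, u, v, hB, hk, hM, rfl⟩ := h
  obtain ⟨s, hs, h1⟩ := tree_prod (List.ofFn fun i => (B i, M i)) (by
    intro x hx
    obtain ⟨i, rfl⟩ := (List.mem_ofFn' _ _).1 hx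
    exact ⟨hB i, fun a b => (hM i a b).1⟩)
  have h2 := h1.affine (fun _ i => u (finProdFinEquiv.symm i).1 * v (finProdFinEquiv.symm i).2) 0
  refine ⟨_, _, s, h2, fun i => ?_, hs, ⟨0, Nat.mul_pos hw hw⟩, ?_⟩
  · rw [List.map_ofFn, List.sum_ofFn]
    refine le_trans (le_of_eq ?_) (hk i)
    rw [Finset.card_filter]
    rfl
  · rw [List.map_ofFn]
    have e1 : (Prod.snd ∘ fun i : Fin N => (B i, M i)) = M := rfl
    rw [e1, ← finProdFinEquiv.sum_comp, Fintype.sum_prod_type]
    simp only [dotProduct, mulVec, Equiv.symm_apply_apply, Pi.zero_apply, C_0, add_zero, C_mul]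
    apply Finset.sum_congr rfl
    intro a _
    rw [Finset.mul_sum]
    apply Finset.sum_congr rfl
    intro b _
    ring

end Programs

end Pool.Agent.Helper8.RGL
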