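import Pool.Agent.Helper8.RGL.PRep

/-!
Combinatorial representation lemma: a hereditarily good piece with many letters, each occurring
at most `k` times, is represented by few passes on many of the letters.
-/

namespace Pool.Agent.Helper8.LTree

open Module Matrix Pool.Agent.Helper5 Pool.Agent.Helper8

variable {K : Type*} [Field K] {w n ℓ : ℕ}

section Cuts

theorem cut_inc {B : Finset ℕ} {c d : ℕ} (hcd : c ≤ d) (f g : ℕ → ℕ)
    (hf : ∀ l ∈ B, c ≤ f l) (hg : ∀ l ∈ B, g l < d)
    (hR : ∀ i ∈ B, ∀ j ∈ B, i < j → g i < f j) :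
    ∃ x : ℕ → ℕ, (∀ l, c ≤ x l ∧ x l ≤ d) ∧ Monotone x ∧ ∀ l ∈ B, x l ≤ f l ∧ g l < x (l + 1) := by
  classical
  refine ⟨fun l => max c ((B.filter (fun i => i < l)).sup (fun i => g i + 1)), ?_, ?_, ?_⟩
  · intro l
    refine ⟨le_max_left _ _, max_le hcd ?_⟩
    apply Finset.sup_le
    intro i hi
    rw [Finset.mem_filter] at hi
    have := hg i hi.1
    omega
  · intro l l' hl
    apply max_le_max le_rfl
    apply Finset.sup_mono
    intro i hi
    rw [Finset.mem_filter] at hi ⊢
    exact ⟨hi.1, lt_of_lt_of_le hi.2 hl⟩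
  · intro l hl
    constructor
    · apply max_le (hf l hl)
      apply Finset.sup_le
      intro i hi
      rw [Finset.mem_filter] at hi
      exact hR i hi.1 l hl hi.2
    · have h5 : g l + 1 ≤ (B.filter (fun i => i < l + 1)).sup (fun i => g i + 1) :=
        Finset.le_sup (f := fun i => g i + 1) (by rw [Finset.mem_filter]; exact ⟨hl, by omega⟩)
      exact lt_of_lt_of_le (by omega) (h5.trans (le_max_right c _))

theorem cut_dec {B : Finset ℕ} {c d : ℕ} (f g : ℕ → ℕ)
    (hf : ∀ l ∈ B, c ≤ f l) (hg : ∀ l ∈ B, g l < d) (hfg : ∀ l ∈ B, f l ≤ g l)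
    (hcd : c ≤ d) (hR : ∀ i ∈ B, ∀ j ∈ B, i < j → g j < f i) :
    ∃ x : ℕ → ℕ, (∀ l, c ≤ x l ∧ x l ≤ d) ∧ Antitone x ∧ ∀ l ∈ B, x (l + 1) ≤ f l ∧ g l < x l := by
  classical
  refine ⟨fun l => d - ((B.filter (fun i => i < l)).sup (fun i => d - f i)), ?_, ?_, ?_⟩
  · intro l
    refine ⟨?_, Nat.sub_le _ _⟩
    have : (B.filter (fun i => i < l)).sup (fun i => d - f i) ≤ d - c := by
      apply Finset.sup_le
      intro i hi
      rw [Finset.mem_filter] at hi
      have := hf i hi.1
      omega
    simp only
    omega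
  · intro l l' hl
    have : (B.filter (fun i => i < l)).sup (fun i => d - f i) ≤
        (B.filter (fun i => i < l')).sup (fun i => d - f i) := by
      apply Finset.sup_mono
      intro i hi
      rw [Finset.mem_filter] at hi ⊢
      exact ⟨hi.1, lt_of_lt_of_le hi.2 hl⟩
    simp only
    omega
  · intro l hl
    constructor
    · have h5 : d - f l ≤ (B.filter (fun i => i < l + 1)).sup (fun i => d - f i) :=
        Finset.le_sup (f := fun i => d - f i) (by rw [Finset.mem_filter]; exact ⟨hl, by omega⟩)
      have := hf l hl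
      have := hg l hl
      have := hfg l hl
      simp only
      omega
    · have h5 : (B.filter (fun i => i < l)).sup (fun i => d - f i) ≤ d - (g l + 1) := by
        apply Finset.sup_le
        intro i hi
        rw [Finset.mem_filter] at hi
        have := hR i hi.1 l hl hi.2
        omega
      have := hg l hl
      simp only
      omega

end Cuts

section Words

/-- word of a list of frames -/
def wd [Inhabited (Frame K w n ℓ)] (C : List (Frame K w n ℓ)) (j : ℕ) : Frame K w n ℓ := C.getD j default

theorem cmat_eq_seg [Inhabited (Frame K w n ℓ)] (C : List (Frame K w n ℓ)) (g : Fin n → K) :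
    ∀ i j, i ≤ j → j ≤ C.length →
      cmat ((C.drop i).take (j - i)) g = seg (fun l => fmat (wd C l) g) i j := by
  intro i j hij
  induction j, hij using Nat.le_induction with
  | base => intro _; simp [cmat_nil]
  | succ j hij ih =>
    intro hj
    have h1 := ih (by omega)
    rw [seg_succ _ hij, ← h1]
    have h2 : j + 1 - i = (j - i) + 1 := by omega
    have hlt : j - i < (C.drop i).length := by rw [List.length_drop]; omega
    rw [h2, List.take_succ_eq_append_getElem hlt, cmat_append, cmat_cons, cmat_nil, mul_one]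
    congr 2
    rw [List.getElem_drop]
    unfold wd
    have h3 : i + (j - i) = j := by omega
    rw [List.getD_eq_getElem?_getD, List.getElem?_eq_getElem (by omega)]
    simp [h3]

theorem cmat_eq_seg' [Inhabited (Frame K w n ℓ)] (C : List (Frame K w n ℓ)) (g : Fin n → K) :
    cmat C g = seg (fun l => fmat (wd C l) g) 0 C.length := by
  have := cmat_eq_seg C g 0 C.length (Nat.zero_le _) le_rfl
  simpa using this

theorem ccnt_eq_sum [Inhabited (Frame K w n ℓ)] (C : List (Frame K w n ℓ)) (i : Fin n) :
    ccnt i C = ∑ j ∈ Finset.Ico 0 C.length, (wd C j).2.cnt i := by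
  induction C with
  | nil => simp [ccnt]
  | cons f C ih =>
    have h1 : ccnt i (f :: C) = f.2.cnt i + ccnt i C := by simp [ccnt]
    rw [h1, ih, List.length_cons, Finset.sum_eq_sum_Ico_succ_bot (Nat.succ_pos _)]
    congr 1
    rw [← Finset.sum_Ico_add' (fun j => (wd (f :: C) j).2.cnt i) 0 C.length 1]
    apply Finset.sum_congr rfl
    intro j _
    simp [wd]

end Words

section CombLemma

variable (s : ℕ → Fin n)

/-- the outcome of the descent in a tree -/
def Res [Inhabited (Frame K w n ℓ)] (M : ℕ) (T : Prog K w n ℓ) (h : ℕ) (A : Finset ℕ) : Prop :=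
  (∃ C Bn l r, Path T C (Prog.node Bn l r) ∧ ∃ A' ⊆ A, M ≤ A'.card ∧
      ∀ a ∈ A', ccnt (s a) C = 0 ∧ 0 < l.cnt (s a) ∧ 0 < r.cnt (s a)) ∨
  (∃ C S hS hc F hF, Path T C (Prog.leaf S hS hc F hF) ∧ ∃ A' ⊆ A, h ≤ A'.card ∧ ∃ f : ℕ → ℕ,
      (∀ a ∈ A', f a < C.length ∧ (∀ j < f a, (wd C j).2.cnt (s a) = 0) ∧
        0 < (wd C (f a)).2.cnt (s a)) ∧ (∀ a ∈ A', ∀ b ∈ A', f a = f b → a = b))

variable {s}

theorem Res.step [Inhabited (Frame K w n ℓ)] {M : ℕ} {T T1 : Prog K w n ℓ} {fr : Frame K w n ℓ}
    (hstep : ∀ C u, Path T1 C u → Path T (fr :: C) u) {h : ℕ} {A : Finset ℕ}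
    (hA : ∀ a ∈ A, fr.2.cnt (s a) = 0) (hres : Res s M T1 h A) : Res s M T h A := by
  rcases hres with ⟨C, Bn, l, r, hp, A', hA', hc, hh⟩ | ⟨C, S, hS, hcc, F, hF, hp, A', hA', hc, f, hf, hinj⟩
  · left
    refine ⟨fr :: C, Bn, l, r, hstep _ _ hp, A', hA', hc, fun a ha => ?_⟩
    obtain ⟨h1, h2, h3⟩ := hh a ha
    refine ⟨?_, h2, h3⟩
    simp only [ccnt, List.map_cons, List.sum_cons] at h1 ⊢
    rw [h1, hA a (hA' ha)]
  · right
    refine ⟨fr :: C, S, hS, hcc, F, hF, hstep _ _ hp, A', hA', hc, fun a => f a + 1, fun a ha => ?_, ?_⟩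
    · obtain ⟨h1, h2, h3⟩ := hf a ha
      simp only
      refine ⟨by rw [List.length_cons]; omega, ?_, by simpa [wd] using h3⟩
      intro j hj
      cases j with
      | zero => simpa [wd] using hA a (hA' ha)
      | succ j => simpa [wd] using h2 j (by omega)
    · intro a ha b hb hab
      exact hinj a ha b hb (by simpa using hab)

theorem Res.add [Inhabited (Frame K w n ℓ)] {M : ℕ} {T T1 : Prog K w n ℓ} {fr : Frame K w n ℓ}
    (hstep : ∀ C u, Path T1 C u → Path T (fr :: C) u) {h : ℕ} {A A0 : Finset ℕ} {a1 : ℕ}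
    (hA : ∀ a ∈ A, fr.2.cnt (s a) = 0) (ha1 : a1 ∉ A) (ha1f : 0 < fr.2.cnt (s a1))
    (hA0 : insert a1 A ⊆ A0) (hres : Res s M T1 h A) : Res s M T (h + 1) A0 := by
  classical
  rcases hres with ⟨C, Bn, l, r, hp, A', hA', hc, hh⟩ | ⟨C, S, hS, hcc, F, hF, hp, A', hA', hc, f, hf, hinj⟩
  · left
    refine ⟨fr :: C, Bn, l, r, hstep _ _ hp, A',
      (hA'.trans (Finset.subset_insert _ _)).trans hA0, hc, fun a ha => ?_⟩
    obtain ⟨h1, h2, h3⟩ := hh a ha
    refine ⟨?_, h2, h3⟩
    simp only [ccnt, List.map_cons, List.sum_cons] at h1 ⊢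
    rw [h1, hA a (hA' ha)]
  · right
    have hne : ∀ a ∈ A', a ≠ a1 := fun a ha h => ha1 (h ▸ hA' ha)
    refine ⟨fr :: C, S, hS, hcc, F, hF, hstep _ _ hp, insert a1 A',
      (Finset.insert_subset_insert _ hA').trans hA0, ?_,
      fun a => if a = a1 then 0 else f a + 1, fun a ha => ?_, ?_⟩
    · rw [Finset.card_insert_of_notMem (fun h => ha1 (hA' h))]; omega
    · rw [Finset.mem_insert] at ha
      rcases ha with rfl | ha
      · simp only [if_true]
        exact ⟨by simp, fun j hj => absurd hj (Nat.not_lt_zero j), by simpa [wd] using ha1f⟩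
      · simp only [if_neg (hne a ha)]
        obtain ⟨h1, h2, h3⟩ := hf a ha
        refine ⟨by rw [List.length_cons]; omega, ?_, by simpa [wd] using h3⟩
        intro j hj
        cases j with
        | zero => simpa [wd] using hA a (hA' ha)
        | succ j => simpa [wd] using h2 j (by omega)
    · intro a ha b hb hab
      rw [Finset.mem_insert] at ha hb
      rcases ha with rfl | ha
      · rcases hb with rfl | hb
        · rfl
        · simp [hne b hb] at hab
      · rcases hb with rfl | hb
        · simp [hne a ha] at hab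
        · simp only [if_neg (hne a ha), if_neg (hne b hb)] at hab
          exact hinj a ha b hb (by omega)

/-- number of letters needed for a comb of length `h` -/
def mh (ℓ M : ℕ) : ℕ → ℕ
  | 0 => ℓ + 1
  | h + 1 => 2 * mh ℓ M h + M

theorem lt_mh (M : ℕ) : ∀ h, ℓ < mh ℓ M h
  | 0 => Nat.lt_succ_self ℓ
  | h + 1 => by unfold mh; have := lt_mh M h; omega

theorem exists_leaf_path : ∀ T : Prog K w n ℓ, ∃ C S hS hc F hF,
    Path T C (Prog.leaf S hS hc F hF)
  | Prog.leaf S hS hc F hF => ⟨[], S, hS, hc, F, hF, Path.nil _⟩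
  | Prog.node B l r => by
    obtain ⟨C, S, hS, hc, F, hF, h⟩ := exists_leaf_path l
    exact ⟨_, S, hS, hc, F, hF, Path.left r h⟩

theorem comb [Inhabited (Frame K w n ℓ)] (M : ℕ) : ∀ (T : Prog K w n ℓ) (h : ℕ) (A : Finset ℕ),
    mh ℓ M h ≤ A.card → (∀ i ∈ A, ∀ j ∈ A, s i = s j → i = j) → (∀ l ∈ A, 0 < T.cnt (s l)) →
    Res s M T h A := by
  classical
  intro T
  induction T with
  | leaf S hS hc F hF =>
    intro h A hA hinj hcnt
    have h1 : A.card ≤ ℓ := by
      refine le_trans ?_ hc
      apply Finset.card_le_card_of_injOn s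
      · intro a ha
        have h2 := hcnt a ha
        simp only [Prog.cnt] at h2
        split_ifs at h2 with h4
        · exact h4
        · omega
      · intro a ha b hb hab
        exact hinj a ha b hb hab
    exfalso
    have := lt_mh (ℓ := ℓ) M h
    omega
  | node Bn l r ihl ihr =>
    intro h A hA hinj hcnt
    cases h with
    | zero =>
      right
      obtain ⟨C, S, hS, hc, F, hF, hp⟩ := exists_leaf_path (Prog.node Bn l r)
      exact ⟨C, S, hS, hc, F, hF, hp, ∅, by simp, by simp, fun _ => 0, by simp, by simp⟩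
    | succ h =>
      set Ab := A.filter (fun a => 0 < l.cnt (s a) ∧ 0 < r.cnt (s a)) with hAb
      set Al := A.filter (fun a => r.cnt (s a) = 0) with hAl
      set Ar := A.filter (fun a => l.cnt (s a) = 0) with hAr
      by_cases hM : M ≤ Ab.card
      · left
        refine ⟨[], Bn, l, r, Path.nil _, Ab, Finset.filter_subset _ _, hM, fun a ha => ?_⟩
        rw [hAb, Finset.mem_filter] at ha
        exact ⟨rfl, ha.2⟩
      have hcard : A.card ≤ Ab.card + (Al.card + Ar.card) := by
        have : A ⊆ Ab ∪ (Al ∪ Ar) := by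
          intro a ha
          have h1 := hcnt a ha
          simp only [Prog.cnt] at h1
          rw [Finset.mem_union, Finset.mem_union, hAb, hAl, hAr, Finset.mem_filter,
            Finset.mem_filter, Finset.mem_filter]
          by_cases h2 : l.cnt (s a) = 0
          · exact Or.inr (Or.inr ⟨ha, h2⟩)
          · by_cases h3 : r.cnt (s a) = 0
            · exact Or.inr (Or.inl ⟨ha, h3⟩)
            · exact Or.inl ⟨ha, by omega, by omega⟩
        refine (Finset.card_le_card this).trans ((Finset.card_union_le _ _).trans ?_)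
        exact Nat.add_le_add_left (Finset.card_union_le _ _) _
      have hmh : mh ℓ M (h + 1) = 2 * mh ℓ M h + M := rfl
      by_cases hl : mh ℓ M h ≤ Al.card
      · have hstep : ∀ C u, Path l C u → Path (Prog.node Bn l r) ((Bn, r) :: C) u :=
          fun C u hp => Path.left r hp
        by_cases hall : Al = A
        · have hA' : ∀ a ∈ A, r.cnt (s a) = 0 := by
            intro a ha
            rw [← hall, hAl, Finset.mem_filter] at ha
            exact ha.2
          refine Res.step hstep hA' (ihl (h + 1) A hA hinj ?_)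
          intro a ha
          have h1 := hcnt a ha
          simp only [Prog.cnt, hA' a ha] at h1
          omega
        · obtain ⟨a1, ha1, ha1'⟩ : ∃ a1 ∈ A, a1 ∉ Al := by
            by_contra hcon
            push Not at hcon
            exact hall (Finset.Subset.antisymm (Finset.filter_subset _ _) hcon)
          refine Res.add hstep (A := Al) (a1 := a1) ?_ ha1' ?_ ?_ (ihl h Al hl ?_ ?_)
          · intro a ha
            rw [hAl, Finset.mem_filter] at ha
            exact ha.2
          · rw [hAl, Finset.mem_filter, not_and] at ha1'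
            exact Nat.pos_of_ne_zero (ha1' ha1)
          · rw [Finset.insert_subset_iff]
            exact ⟨ha1, Finset.filter_subset _ _⟩
          · intro a ha b hb
            exact hinj a (Finset.mem_of_mem_filter a ha) b (Finset.mem_of_mem_filter b hb)
          · intro a ha
            rw [hAl, Finset.mem_filter] at ha
            have h1 := hcnt a ha.1
            simp only [Prog.cnt, ha.2] at h1
            omega
      · have hr : mh ℓ M h ≤ Ar.card := by omega
        have hstep : ∀ C u, Path r C u →
            Path (Prog.node Bn l r) ((fun a b c => Bn a c b, l) :: C) u :=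
          fun C u hp => Path.right l hp
        by_cases hall : Ar = A
        · have hA' : ∀ a ∈ A, l.cnt (s a) = 0 := by
            intro a ha
            rw [← hall, hAr, Finset.mem_filter] at ha
            exact ha.2
          refine Res.step hstep hA' (ihr (h + 1) A hA hinj ?_)
          intro a ha
          have h1 := hcnt a ha
          simp only [Prog.cnt, hA' a ha] at h1
          omega
        · obtain ⟨a1, ha1, ha1'⟩ : ∃ a1 ∈ A, a1 ∉ Ar := by
            by_contra hcon
            push Not at hcon
            exact hall (Finset.Subset.antisymm (Finset.filter_subset _ _) hcon)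
          refine Res.add hstep (A := Ar) (a1 := a1) ?_ ha1' ?_ ?_ (ihr h Ar hr ?_ ?_)
          · intro a ha
            rw [hAr, Finset.mem_filter] at ha
            exact ha.2
          · rw [hAr, Finset.mem_filter, not_and] at ha1'
            exact Nat.pos_of_ne_zero (ha1' ha1)
          · rw [Finset.insert_subset_iff]
            exact ⟨ha1, Finset.filter_subset _ _⟩
          · intro a ha b hb
            exact hinj a (Finset.mem_of_mem_filter a ha) b (Finset.mem_of_mem_filter b hb)
          · intro a ha
            rw [hAr, Finset.mem_filter] at ha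
            have h1 := hcnt a ha.1
            simp only [Prog.cnt, ha.2] at h1
            omega

end CombLemma

end Pool.Agent.Helper8.LTree
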