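import Pool.Agent.Helper5.Chain
import Pool.Agent.Helper5.MatRank

/-!
Tree programs with bilinear gates: syntax, values, contexts.
-/

namespace Pool.Agent.Helper8.LTree

open Module Matrix Pool.Agent.Helper5

/-- Tree programs: leaves carry a nonempty set of at most `ℓ` variables and a vector of polynomials
in these variables, inner nodes carry a bilinear map `K^w × K^w → K^w`. -/
inductive Prog (K : Type*) [Field K] (w n ℓ : ℕ)
  | leaf (S : Finset (Fin n)) (hS : S.Nonempty) (hc : S.card ≤ ℓ)
      (F : Fin w → MvPolynomial (Fin n) K) (hF : ∀ a, (F a).vars ⊆ S) : Prog K w n ℓ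
  | node (B : Fin w → Fin w → Fin w → K) (l r : Prog K w n ℓ) : Prog K w n ℓ

variable {K : Type*} [Field K] {w n ℓ : ℕ}

namespace Prog

/-- value at a point -/
noncomputable def val (g : Fin n → K) : Prog K w n ℓ → (Fin w → K)
  | leaf _ _ _ F _ => fun a => MvPolynomial.eval g (F a)
  | node B l r => fun a => ∑ b, ∑ c, B a b c * l.val g b * r.val g c

/-- number of leaves carrying the variable `i` -/
def cnt (i : Fin n) : Prog K w n ℓ → ℕ
  | leaf S _ _ _ _ => if i ∈ S then 1 else 0
  | node _ l r => l.cnt i + r.cnt i

/-- number of leaves -/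
def size : Prog K w n ℓ → ℕ
  | leaf _ _ _ _ _ => 1
  | node _ l r => l.size + r.size

theorem size_pos : ∀ T : Prog K w n ℓ, 0 < T.size
  | leaf _ _ _ _ _ => Nat.one_pos
  | node _ l r => Nat.add_pos_left (size_pos l) _

/-- the vector of polynomials computed by the program -/
noncomputable def poly : Prog K w n ℓ → (Fin w → MvPolynomial (Fin n) K)
  | leaf _ _ _ F _ => F
  | node B l r => fun a => ∑ b, ∑ c, MvPolynomial.C (B a b c) * l.poly b * r.poly c

theorem eval_poly (g : Fin n → K) : ∀ (T : Prog K w n ℓ) (a : Fin w),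
    MvPolynomial.eval g (T.poly a) = T.val g a
  | leaf _ _ _ F _, a => rfl
  | node B l r, a => by
    simp only [poly, val, map_sum, map_mul, MvPolynomial.eval_C, eval_poly g l, eval_poly g r]

theorem val_congr {g g' : Fin n → K} : ∀ (T : Prog K w n ℓ), (∀ i, 0 < T.cnt i → g i = g' i) →
    T.val g = T.val g'
  | leaf S hS hc F hF, h => by
    funext a
    simp only [val]
    exact MvPolynomial.eval₂Hom_congr' rfl
      (fun i hi _ => h i (by simp only [cnt]; rw [if_pos (hF a hi)]; exact Nat.one_pos)) rfl
  | node B l r, h => by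
    funext a
    simp only [val]
    rw [val_congr l (fun i hi => h i (by simp only [cnt]; omega)),
      val_congr r (fun i hi => h i (by simp only [cnt]; omega))]

end Prog

/-- A frame: one inner node with one of its two children removed; the first component is the
bilinear map, written with the missing child as its first argument. -/
abbrev Frame (K : Type*) [Field K] (w n ℓ : ℕ) := (Fin w → Fin w → Fin w → K) × Prog K w n ℓ

/-- the matrix of a frame -/
noncomputable def fmat (f : Frame K w n ℓ) (g : Fin n → K) : Matrix (Fin w) (Fin w) K :=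
  Matrix.of fun a b => ∑ c, f.1 a b c * f.2.val g c

/-- the matrix of a frame, as a matrix of polynomials -/
noncomputable def fpoly (f : Frame K w n ℓ) : Matrix (Fin w) (Fin w) (MvPolynomial (Fin n) K) :=
  Matrix.of fun a b => ∑ c, MvPolynomial.C (f.1 a b c) * f.2.poly c

theorem eval_fpoly (f : Frame K w n ℓ) (g : Fin n → K) :
    (fpoly f).map (MvPolynomial.eval g) = fmat f g := by
  ext a b
  simp [fpoly, fmat, Prog.eval_poly]

theorem fmat_congr {g g' : Fin n → K} (f : Frame K w n ℓ)
    (h : ∀ i, 0 < f.2.cnt i → g i = g' i) : fmat f g = fmat f g' := by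
  unfold fmat
  rw [Prog.val_congr f.2 h]

/-- the matrix of a list of frames -/
noncomputable def cmat (C : List (Frame K w n ℓ)) (g : Fin n → K) : Matrix (Fin w) (Fin w) K :=
  (C.map fun f => fmat f g).prod

/-- the matrix of a list of frames, as a matrix of polynomials -/
noncomputable def cpoly (C : List (Frame K w n ℓ)) :
    Matrix (Fin w) (Fin w) (MvPolynomial (Fin n) K) := (C.map fpoly).prod

theorem eval_cpoly (C : List (Frame K w n ℓ)) (g : Fin n → K) :
    (cpoly C).map (MvPolynomial.eval g) = cmat C g := by
  have h : ∀ N : Matrix (Fin w) (Fin w) (MvPolynomial (Fin n) K),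
      N.map (MvPolynomial.eval g) = (MvPolynomial.eval g).mapMatrix N := fun N => rfl
  unfold cpoly cmat
  rw [h, map_list_prod, List.map_map]
  congr 1
  apply List.map_congr_left
  intro f _
  exact eval_fpoly f g

theorem cmat_nil (g : Fin n → K) : cmat ([] : List (Frame K w n ℓ)) g = 1 := rfl

theorem cmat_cons (f : Frame K w n ℓ) (C : List (Frame K w n ℓ)) (g : Fin n → K) :
    cmat (f :: C) g = fmat f g * cmat C g := by simp [cmat]

theorem cmat_append (C C' : List (Frame K w n ℓ)) (g : Fin n → K) :
    cmat (C ++ C') g = cmat C g * cmat C' g := by simp [cmat]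

/-- `Path T C T'`: the subprogram `T'` of `T` is reached through the list `C` of frames -/
inductive Path : Prog K w n ℓ → List (Frame K w n ℓ) → Prog K w n ℓ → Prop
  | nil (T : Prog K w n ℓ) : Path T [] T
  | left {B : Fin w → Fin w → Fin w → K} {l : Prog K w n ℓ} (r : Prog K w n ℓ)
      {C : List (Frame K w n ℓ)} {T' : Prog K w n ℓ} (h : Path l C T') :
      Path (Prog.node B l r) ((B, r) :: C) T'
  | right {B : Fin w → Fin w → Fin w → K} (l : Prog K w n ℓ) {r : Prog K w n ℓ}
      {C : List (Frame K w n ℓ)} {T' : Prog K w n ℓ} (h : Path r C T') :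
      Path (Prog.node B l r) ((fun a b c => B a c b, l) :: C) T'

theorem Path.trans {T T' T'' : Prog K w n ℓ} {C C' : List (Frame K w n ℓ)} (h : Path T C T')
    (h' : Path T' C' T'') : Path T (C ++ C') T'' := by
  induction h with
  | nil T => exact h'
  | left r _ ih => exact Path.left r (ih h')
  | right l _ ih => exact Path.right l (ih h')

theorem Path.split {T'' : Prog K w n ℓ} (C : List (Frame K w n ℓ)) : ∀ {C' : List (Frame K w n ℓ)}
    {T : Prog K w n ℓ}, Path T (C ++ C') T'' → ∃ T', Path T C T' ∧ Path T' C' T'' := by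
  induction C with
  | nil => intro C' T h; exact ⟨T, Path.nil T, h⟩
  | cons f C ih =>
    intro C' T h
    rw [List.cons_append] at h
    cases h with
    | left r h =>
      obtain ⟨T', h1, h2⟩ := ih h
      exact ⟨T', Path.left r h1, h2⟩
    | right l h =>
      obtain ⟨T', h1, h2⟩ := ih h
      exact ⟨T', Path.right l h1, h2⟩

/-- the sibling of a path is a child -/
theorem Path.sibling {T T' : Prog K w n ℓ} {f : Frame K w n ℓ} {C : List (Frame K w n ℓ)}
    (h : Path T (f :: C) T') : ∃ f' : Frame K w n ℓ, Path T [f'] f.2 := by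
  cases h with
  | left r h => exact ⟨_, Path.right _ (Path.nil _)⟩
  | right l h => exact ⟨_, Path.left _ (Path.nil _)⟩

theorem Path.val {T T' : Prog K w n ℓ} {C : List (Frame K w n ℓ)} (h : Path T C T')
    (g : Fin n → K) : T.val g = cmat C g *ᵥ T'.val g := by
  induction h with
  | nil T => rw [cmat_nil, Matrix.one_mulVec]
  | left r _ ih =>
    rw [cmat_cons, ← Matrix.mulVec_mulVec, ← ih]
    funext a
    simp only [Prog.val, Matrix.mulVec, dotProduct, fmat, Matrix.of_apply]
    apply Finset.sum_congr rfl
    intro b _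
    rw [Finset.sum_mul]
    apply Finset.sum_congr rfl
    intro c _
    ring
  | right l _ ih =>
    rw [cmat_cons, ← Matrix.mulVec_mulVec, ← ih]
    funext a
    simp only [Prog.val, Matrix.mulVec, dotProduct, fmat, Matrix.of_apply]
    rw [Finset.sum_comm]
    apply Finset.sum_congr rfl
    intro b _
    rw [Finset.sum_mul]

/-- number of occurrences in a list of frames -/
def ccnt (i : Fin n) (C : List (Frame K w n ℓ)) : ℕ := (C.map fun f => f.2.cnt i).sum

theorem Path.cnt {T T' : Prog K w n ℓ} {C : List (Frame K w n ℓ)} (h : Path T C T') (i : Fin n) :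
    T.cnt i = ccnt i C + T'.cnt i := by
  induction h with
  | nil T => simp [ccnt]
  | left r _ ih => simp only [Prog.cnt, ccnt, List.map_cons, List.sum_cons] at ih ⊢; omega
  | right l _ ih => simp only [Prog.cnt, ccnt, List.map_cons, List.sum_cons] at ih ⊢; omega

/-- number of leaves of a list of frames -/
def csize (C : List (Frame K w n ℓ)) : ℕ := (C.map fun f => f.2.size).sum

theorem Path.size {T T' : Prog K w n ℓ} {C : List (Frame K w n ℓ)} (h : Path T C T') :
    T.size = csize C + T'.size := by
  induction h with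
  | nil T => simp [csize]
  | left r _ ih => simp only [Prog.size, csize, List.map_cons, List.sum_cons] at ih ⊢; omega
  | right l _ ih => simp only [Prog.size, csize, List.map_cons, List.sum_cons] at ih ⊢; omega

/-- there are finitely many paths from the root -/
theorem finite_paths : ∀ T : Prog K w n ℓ,
    {p : List (Frame K w n ℓ) × Prog K w n ℓ | Path T p.1 p.2}.Finite
  | Prog.leaf S hS hc F hF => by
    apply Set.Finite.subset (Set.finite_singleton ([], Prog.leaf S hS hc F hF))
    rintro ⟨C, T'⟩ h
    simp only [Set.mem_ofPred_eq] at h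
    cases h
    rfl
  | Prog.node B l r => by
    apply Set.Finite.subset ((((finite_paths l).image fun p => ((B, r) :: p.1, p.2)).union
      ((finite_paths r).image fun p => ((fun a b c => B a c b, l) :: p.1, p.2))).union
      (Set.finite_singleton ([], Prog.node B l r)))
    rintro ⟨C, T'⟩ h
    simp only [Set.mem_ofPred_eq] at h
    cases h with
    | nil => right; rfl
    | left _ h => left; left; exact ⟨(_, _), h, rfl⟩
    | right _ h => left; right; exact ⟨(_, _), h, rfl⟩

/-- `C` is the list of frames of a path between two nodes of `T` -/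
def Inside (T : Prog K w n ℓ) (C : List (Frame K w n ℓ)) : Prop :=
  ∃ (C0 : List (Frame K w n ℓ)) (v u : Prog K w n ℓ), Path T C0 v ∧ Path v C u

theorem finite_inside (T : Prog K w n ℓ) : {C | Inside T C}.Finite := by
  have h1 : {C | Inside T C} ⊆ ⋃ p ∈ {p : List (Frame K w n ℓ) × Prog K w n ℓ | Path T p.1 p.2},
      Prod.fst '' {p' : List (Frame K w n ℓ) × Prog K w n ℓ | Path p.2 p'.1 p'.2} := by
    rintro C ⟨C0, v, u, h1, h2⟩
    simp only [Set.mem_iUnion]
    exact ⟨(C0, v), h1, (C, u), h2, rfl⟩
  refine Set.Finite.subset ?_ h1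
  exact (finite_paths T).biUnion fun p _ => (finite_paths p.2).image _

theorem Inside.of_path {T T' : Prog K w n ℓ} {C0 C : List (Frame K w n ℓ)} (h : Path T C0 T')
    (hC : Inside T' C) : Inside T C := by
  obtain ⟨C1, v, u, h1, h2⟩ := hC
  exact ⟨C0 ++ C1, v, u, h.trans h1, h2⟩

end Pool.Agent.Helper8.LTree
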