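import Pool.Agent.Helper8.RGL.PDefs
import Pool.Agent.Helper8.PolySpace
import Pool.Agent.Helper8.Tile

/-!
Representations of functions of patterns through passes.
-/

namespace Pool.Agent.Helper8.LTree

open Module Matrix Pool.Agent.Helper5 Pool.Agent.Helper8

variable {K : Type*} [Field K] {w n ℓ : ℕ}

section PolyExt

theorem comp_mem {t t' D : ℕ} (φ : (ℕ → Matrix (Fin w) (Fin w) K) → (ℕ → Matrix (Fin w) (Fin w) K))
    (hφ : ∀ c < t', ∀ i j, (fun C => φ C c i j) ∈ Aff K w t)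
    {f : (ℕ → Matrix (Fin w) (Fin w) K) → K} (hf : f ∈ Aff K w t' ^ D) :
    (fun C => f (φ C)) ∈ Aff K w t ^ D := by
  classical
  set Ψ : ((ℕ → Matrix (Fin w) (Fin w) K) → K) →ₐ[K] ((ℕ → Matrix (Fin w) (Fin w) K) → K) :=
    { toFun := fun f => fun C => f (φ C)
      map_one' := rfl
      map_mul' := fun _ _ => rfl
      map_zero' := rfl
      map_add' := fun _ _ => rfl
      commutes' := fun _ => rfl } with hΨ
  have h1 : (Aff K w t').map Ψ.toLinearMap ≤ Aff K w t := by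
    unfold Aff
    rw [Submodule.map_span_le]
    intro f hf
    rw [Finset.mem_coe] at hf
    unfold coordSet at hf
    rw [Finset.mem_insert] at hf
    rcases hf with rfl | hf
    · exact one_mem_Aff t
    · rw [Finset.mem_image] at hf
      obtain ⟨p, _, rfl⟩ := hf
      exact hφ p.1 p.1.2 p.2.1 p.2.2
  have h2 : (Aff K w t' ^ D).map Ψ.toLinearMap ≤ Aff K w t ^ D := by
    rw [Submodule.map_pow]
    exact pow_le_pow_left' h1 D
  exact h2 ⟨f, hf, rfl⟩

theorem Pol.comp {t t' D : ℕ} {m p : ℕ}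
    {G : (ℕ → Matrix (Fin w) (Fin w) K) → Matrix (Fin m) (Fin p) K} (hG : Pol t' D G)
    (φ : (ℕ → Matrix (Fin w) (Fin w) K) → (ℕ → Matrix (Fin w) (Fin w) K))
    (hφ : ∀ c < t', Pol t 1 (fun C => φ C c)) : Pol t D (fun C => G (φ C)) := by
  intro i j
  apply comp_mem φ _ (hG i j)
  intro c hc i' j'
  have := hφ c hc i' j'
  rwa [pow_one] at this

theorem Pol.linear {t D : ℕ} {m p m' p' : ℕ}
    {G : (ℕ → Matrix (Fin w) (Fin w) K) → Matrix (Fin m) (Fin p) K} (hG : Pol t D G)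
    (H : Matrix (Fin m) (Fin p) K →ₗ[K] Matrix (Fin m') (Fin p') K) :
    Pol t D (fun C => H (G C)) := by
  classical
  intro i j
  have : (fun C => H (G C) i j) = ∑ a, ∑ b, (H (Matrix.single a b 1) i j) •
      (fun C => G C a b) := by
    funext C
    conv_lhs => rw [Matrix.matrix_eq_sum_single (G C)]
    simp only [map_sum, Matrix.sum_apply, Finset.sum_apply, Pi.smul_apply, smul_eq_mul]
    apply Finset.sum_congr rfl
    intro a _
    apply Finset.sum_congr rfl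
    intro b _
    have : Matrix.single a b (G C a b) = (G C a b) • Matrix.single a b (1 : K) := by
      rw [Matrix.smul_single, smul_eq_mul, mul_one]
    rw [this, map_smul, Matrix.smul_apply, smul_eq_mul, mul_comm]
  rw [this]
  exact Submodule.sum_mem _ (fun a _ => Submodule.sum_mem _ (fun b _ =>
    Submodule.smul_mem _ _ (hG a b)))

theorem Pol.coord' {t c : ℕ} (hc : c < t) :
    Pol t 1 (fun C : (ℕ → Matrix (Fin w) (Fin w) K) => C c) := by
  have := Pol.coord (K := K) (w := w) hc (1 : ℕ → Matrix (Fin w) (Fin w) K)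
  simpa using this

end PolyExt

section Pattern

variable (γ y : Fin n → K) (S : Finset (Fin n)) (s : ℕ → Fin n)

open Classical in
/-- the point of a pattern: a letter `s l` with `¬ σ l` is reset to `γ` -/
noncomputable def pt (σ : ℕ → Prop) : Fin n → K :=
  fun i => if i ∈ S ∧ ∀ l, s l = i → σ l then y i else γ i

theorem pt_congr {σ σ' : ℕ → Prop} {i : Fin n} (h : ∀ l, s l = i → (σ l ↔ σ' l)) :
    pt γ y S s σ i = pt γ y S s σ' i := by
  classical
  have : (i ∈ S ∧ ∀ l, s l = i → σ l) ↔ (i ∈ S ∧ ∀ l, s l = i → σ' l) :=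
    and_congr_right fun _ => forall_congr' fun l => imp_congr_right fun hl => h l hl
  unfold pt
  by_cases h1 : i ∈ S ∧ ∀ l, s l = i → σ l
  · rw [if_pos h1, if_pos (this.mp h1)]
  · rw [if_neg h1, if_neg (fun h2 => h1 (this.mpr h2))]

/-- the rank of a list of frames does not depend on the pattern -/
def Rk (C : List (Frame K w n ℓ)) : Prop :=
  ∀ σ σ', (cmat C (pt γ y S s σ)).rank = (cmat C (pt γ y S s σ')).rank

/-- the rank of a segment does not depend on the pattern -/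
def GoodSeg (Cf : ℕ → Frame K w n ℓ) (i j : ℕ) : Prop :=
  ∀ σ σ', (seg (fun l => fmat (Cf l) (pt γ y S s σ)) i j).rank =
    (seg (fun l => fmat (Cf l) (pt γ y S s σ')) i j).rank

/-- hereditarily good trees -/
def HG (T : Prog K w n ℓ) : Prop := ∀ C, Inside T C → Rk γ y S s C

/-- A monotone pass through an interval of frames. -/
def PassOn (B : Finset ℕ) (Cf : ℕ → Frame K w n ℓ) (a b : ℕ) (dir : Bool) (x : ℕ → ℕ) : Prop :=
  (∀ l, a ≤ x l ∧ x l ≤ b) ∧
  (dir = true → Monotone x ∧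
    ∀ j, a ≤ j → j < b → ∀ l ∈ B, 0 < (Cf j).2.cnt (s l) → x l ≤ j ∧ j < x (l + 1)) ∧
  (dir = false → Antitone x ∧
    ∀ j, a ≤ j → j < b → ∀ l ∈ B, 0 < (Cf j).2.cnt (s l) → x (l + 1) ≤ j ∧ j < x l) ∧
  (∀ i j, a ≤ i → i ≤ j → j ≤ b → GoodSeg γ y S s Cf i j)

variable {γ y S s}

theorem PassOn.mono {B B' : Finset ℕ} {Cf : ℕ → Frame K w n ℓ} {a b : ℕ} {dir : Bool} {x : ℕ → ℕ}
    (h : PassOn γ y S s B Cf a b dir x) (hB : B' ⊆ B) : PassOn γ y S s B' Cf a b dir x :=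
  ⟨h.1, fun hd => ⟨(h.2.1 hd).1, fun j h1 h2 l hl => (h.2.1 hd).2 j h1 h2 l (hB hl)⟩,
    fun hd => ⟨(h.2.2.1 hd).1, fun j h1 h2 l hl => (h.2.2.1 hd).2 j h1 h2 l (hB hl)⟩, h.2.2.2⟩

variable (γ y S s)

/-- the tuple of values of the passes -/
noncomputable def tup (t : ℕ) (Cf : ℕ → ℕ → Frame K w n ℓ) (a b : ℕ → ℕ) (σ : ℕ → Prop) :
    ℕ → Matrix (Fin w) (Fin w) K :=
  fun c => if c < t then seg (fun j => fmat (Cf c j) (pt γ y S s σ)) (a c) (b c) else 1

/-- A function of patterns supported in `B` is represented by at most `t` passes. -/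
def Rep (w n ℓ : ℕ) {K : Type*} [Field K] (γ y : Fin n → K) (S : Finset (Fin n)) (s : ℕ → Fin n)
    {m p : ℕ} (B : Finset ℕ) (t : ℕ) (F : (ℕ → Prop) → Matrix (Fin m) (Fin p) K) : Prop :=
  ∃ t' ≤ t, ∃ (Cf : ℕ → ℕ → Frame K w n ℓ) (a b : ℕ → ℕ) (dir : ℕ → Bool) (x : ℕ → ℕ → ℕ),
    (∀ c < t', a c ≤ b c ∧ PassOn γ y S s B (Cf c) (a c) (b c) (dir c) (x c)) ∧
    ∃ G : (ℕ → Matrix (Fin w) (Fin w) K) → Matrix (Fin m) (Fin p) K, Pol t' t' G ∧
      ∀ σ : ℕ → Prop, (∀ l, l ∉ B → σ l) → F σ = G (tup γ y S s t' Cf a b σ)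

variable {γ y S s} {m p : ℕ} {B : Finset ℕ} {t : ℕ}

theorem Rep.mono {F : (ℕ → Prop) → Matrix (Fin m) (Fin p) K} (h : Rep w n ℓ γ y S s B t F)
    {B' : Finset ℕ} (hB : B' ⊆ B) {t2 : ℕ} (ht : t ≤ t2) : Rep w n ℓ γ y S s B' t2 F := by
  obtain ⟨t', ht', Cf, a, b, dir, x, hp, G, hG, hF⟩ := h
  exact ⟨t', ht'.trans ht, Cf, a, b, dir, x, fun c hc => ⟨(hp c hc).1, (hp c hc).2.mono hB⟩,
    G, hG, fun σ hσ => hF σ fun l hl => hσ l fun h => hl (hB h)⟩

theorem Rep.congr {F F' : (ℕ → Prop) → Matrix (Fin m) (Fin p) K} (h : Rep w n ℓ γ y S s B t F)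
    (hF : ∀ σ : ℕ → Prop, (∀ l, l ∉ B → σ l) → F' σ = F σ) : Rep w n ℓ γ y S s B t F' := by
  obtain ⟨t', ht', Cf, a, b, dir, x, hp, G, hG, hF'⟩ := h
  exact ⟨t', ht', Cf, a, b, dir, x, hp, G, hG, fun σ hσ => (hF σ hσ).trans (hF' σ hσ)⟩

theorem Rep.const [Inhabited (Frame K w n ℓ)] (F : (ℕ → Prop) → Matrix (Fin m) (Fin p) K)
    (hF : ∀ σ : ℕ → Prop, (∀ l, l ∉ B → σ l) → F σ = F (fun _ => True)) :
    Rep w n ℓ γ y S s B 0 F :=
  ⟨0, le_rfl, fun _ _ => default, fun _ => 0, fun _ => 0, fun _ => true, fun _ _ => 0,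
    fun c hc => absurd hc (Nat.not_lt_zero c), fun _ => F fun _ => True,
    Pol.const 0 0 _, hF⟩

theorem Rep.linear {F : (ℕ → Prop) → Matrix (Fin m) (Fin p) K} (h : Rep w n ℓ γ y S s B t F)
    {m' p' : ℕ} (H : Matrix (Fin m) (Fin p) K →ₗ[K] Matrix (Fin m') (Fin p') K) :
    Rep w n ℓ γ y S s B t (fun σ => H (F σ)) := by
  obtain ⟨t', ht', Cf, a, b, dir, x, hp, G, hG, hF⟩ := h
  exact ⟨t', ht', Cf, a, b, dir, x, hp, fun C => H (G C), Pol.linear hG H,
    fun σ hσ => by simp only [hF σ hσ]⟩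

theorem Rep.pass {Cf : ℕ → Frame K w n ℓ} {a b : ℕ} {dir : Bool} {x : ℕ → ℕ} (hab : a ≤ b)
    (h : PassOn γ y S s B Cf a b dir x) :
    Rep w n ℓ γ y S s B 1 (fun σ => seg (fun j => fmat (Cf j) (pt γ y S s σ)) a b) :=
  ⟨1, le_rfl, fun _ => Cf, fun _ => a, fun _ => b, fun _ => dir, fun _ => x,
    fun _ _ => ⟨hab, h⟩, fun C => C 0, Pol.coord' Nat.one_pos, fun σ _ => by
      simp [tup]⟩

theorem Rep.mul {q : ℕ} {t1 t2 : ℕ} {F1 : (ℕ → Prop) → Matrix (Fin m) (Fin p) K}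
    {F2 : (ℕ → Prop) → Matrix (Fin p) (Fin q) K} (h1 : Rep w n ℓ γ y S s B t1 F1)
    (h2 : Rep w n ℓ γ y S s B t2 F2) : Rep w n ℓ γ y S s B (t1 + t2) (fun σ => F1 σ * F2 σ) := by
  obtain ⟨s1, hs1, Cf1, a1, b1, dir1, x1, hp1, G1, hG1, hF1⟩ := h1
  obtain ⟨s2, hs2, Cf2, a2, b2, dir2, x2, hp2, G2, hG2, hF2⟩ := h2
  refine ⟨s1 + s2, by omega, fun c => if c < s1 then Cf1 c else Cf2 (c - s1),
    fun c => if c < s1 then a1 c else a2 (c - s1), fun c => if c < s1 then b1 c else b2 (c - s1),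
    fun c => if c < s1 then dir1 c else dir2 (c - s1),
    fun c => if c < s1 then x1 c else x2 (c - s1), ?_,
    fun C => G1 (fun c => if c < s1 then C c else 1) *
      G2 (fun c => if c < s2 then C (s1 + c) else 1), ?_, ?_⟩
  · intro c hc
    by_cases h : c < s1
    · simp only [h, if_true]
      exact hp1 c h
    · simp only [h, if_false]
      exact hp2 (c - s1) (by omega)
  · apply Pol.mul
    · apply Pol.comp hG1
      intro c hc
      simp only [hc, if_true]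
      exact Pol.coord' (by omega)
    · apply Pol.comp hG2
      intro c hc
      simp only [hc, if_true]
      exact Pol.coord' (by omega)
  · intro σ hσ
    simp only [hF1 σ hσ, hF2 σ hσ]
    congr 2
    · funext c
      by_cases h : c < s1
      · have h' : c < s1 + s2 := by omega
        simp only [tup, h, h', if_true]
      · simp only [tup, h, if_false]
    · funext c
      by_cases h : c < s2
      · have h' : s1 + c < s1 + s2 := by omega
        have h'' : ¬ s1 + c < s1 := by omega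
        simp only [tup, h, h', h'', if_true, if_false, Nat.add_sub_cancel_left]
      · simp only [tup, h, if_false]

end Pattern

end Pool.Agent.Helper8.LTree
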