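import Pool.Agent.Helper8.RGL.PTop
import Pool.Agent.Helper5.Gen

/-!
Heavy paths, and comparison of the other paths with the heavy path.
-/

namespace Pool.Agent.Helper8.LTree

open Module Matrix Pool.Agent.Helper5 Pool.Agent.Helper8
open Pool.Agent.Helper8.Loc (put put_mem put_not_mem put_self isPolyMap_put)

variable {K : Type*} [Field K] {w n ℓ : ℕ}

theorem exists_spine (N : ℕ) (hN : 1 ≤ N) : ∀ T : Prog K w n ℓ, T.size ≤ 2 * N →
    ∃ C T0, Path T C T0 ∧ T0.size ≤ N ∧ ∀ f ∈ C, f.2.size ≤ N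
  | Prog.leaf S hS hc F hF, _ => ⟨[], Prog.leaf S hS hc F hF, Path.nil _, hN, by simp⟩
  | Prog.node B l r, h => by
    have hs : (Prog.node B l r).size = l.size + r.size := rfl
    rcases le_total l.size r.size with hlr | hlr
    · obtain ⟨C, T0, hC, h1, h2⟩ := exists_spine N hN r (by omega)
      refine ⟨_ :: C, T0, Path.right l hC, h1, ?_⟩
      intro f hf
      rcases List.mem_cons.mp hf with rfl | hf
      · simp only; omega
      · exact h2 f hf
    · obtain ⟨C, T0, hC, h1, h2⟩ := exists_spine N hN l (by omega)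
      refine ⟨_ :: C, T0, Path.left r hC, h1, ?_⟩
      intro f hf
      rcases List.mem_cons.mp hf with rfl | hf
      · simp only; omega
      · exact h2 f hf

/-- every sibling of a path is reached by a path -/
theorem Path.sibling_mem {T T' : Prog K w n ℓ} {C : List (Frame K w n ℓ)} (h : Path T C T')
    {f : Frame K w n ℓ} (hf : f ∈ C) : ∃ C0, Path T C0 f.2 := by
  obtain ⟨A, B, rfl⟩ := List.append_of_mem hf
  obtain ⟨v, h1, h2⟩ := Path.split A h
  obtain ⟨f', hf'⟩ := h2.sibling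
  exact ⟨_, h1.trans hf'⟩

/-- occurrences of a subprogram -/
theorem Path.cnt_le {T T' : Prog K w n ℓ} {C : List (Frame K w n ℓ)} (h : Path T C T') (i : Fin n) :
    T'.cnt i ≤ T.cnt i := by rw [h.cnt i]; omega

theorem Path.ccnt_le {T T' : Prog K w n ℓ} {C : List (Frame K w n ℓ)} (h : Path T C T') (i : Fin n) :
    ccnt i C ≤ T.cnt i := by rw [h.cnt i]; omega

theorem Inside.ccnt_le {T : Prog K w n ℓ} {C : List (Frame K w n ℓ)} (h : Inside T C) (i : Fin n) :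
    ccnt i C ≤ T.cnt i := by
  obtain ⟨C0, v, u, h1, h2⟩ := h
  exact (h2.ccnt_le i).trans (h1.cnt_le i)

theorem Inside.of_infix {T T' : Prog K w n ℓ} {C D : List (Frame K w n ℓ)} (h : Path T C T')
    (hD : D <:+: C) : Inside T D := by
  obtain ⟨A, B, rfl⟩ := hD
  rw [List.append_assoc] at h
  obtain ⟨v, h1, h2⟩ := Path.split A h
  obtain ⟨u, h3, h4⟩ := Path.split D h2
  exact ⟨A, v, u, h1, h3⟩

theorem Inside.ofSublist {T : Prog K w n ℓ} {C D : List (Frame K w n ℓ)} (h : Inside T C)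
    (hD : D <:+: C) : Inside T D := by
  obtain ⟨C0, v, u, h1, h2⟩ := h
  exact Inside.of_path h1 (Inside.of_infix h2 hD)

/-- comparison of two paths from the same node -/
theorem path_compare {v T0 : Prog K w n ℓ} {C : List (Frame K w n ℓ)} (h1 : Path v C T0) :
    ∀ {D : List (Frame K w n ℓ)} {u : Prog K w n ℓ}, Path v D u →
    (∃ E, C = D ++ E) ∨ (∃ E, D = C ++ E ∧ Path T0 E u) ∨
    (∃ (P : List (Frame K w n ℓ)) (f : Frame K w n ℓ) (E : List (Frame K w n ℓ)) (f' : Frame K w n ℓ)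
      (E' : List (Frame K w n ℓ)), C = P ++ f :: E ∧ D = P ++ f' :: E' ∧ Path f.2 E' u ∧
      Path f'.2 E T0) := by
  induction h1 with
  | nil T =>
    intro D u h2
    exact Or.inr (Or.inl ⟨D, rfl, h2⟩)
  | @left B l r C T' h ih =>
    intro D u h2
    cases h2 with
    | nil => exact Or.inl ⟨_, rfl⟩
    | left _ h2 =>
      rcases ih h2 with ⟨E, rfl⟩ | ⟨E, rfl, hE⟩ | ⟨P, f, E, f', E', rfl, rfl, h3, h4⟩
      · exact Or.inl ⟨E, rfl⟩
      · exact Or.inr (Or.inl ⟨E, rfl, hE⟩)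
      · exact Or.inr (Or.inr ⟨(B, r) :: P, f, E, f', E', rfl, rfl, h3, h4⟩)
    | right _ h2 =>
      exact Or.inr (Or.inr ⟨[], (B, r), C, _, _, rfl, rfl, h2, h⟩)
  | @right B l r C T' h ih =>
    intro D u h2
    cases h2 with
    | nil => exact Or.inl ⟨_, rfl⟩
    | right _ h2 =>
      rcases ih h2 with ⟨E, rfl⟩ | ⟨E, rfl, hE⟩ | ⟨P, f, E, f', E', rfl, rfl, h3, h4⟩
      · exact Or.inl ⟨E, rfl⟩
      · exact Or.inr (Or.inl ⟨E, rfl, hE⟩)
      · exact Or.inr (Or.inr ⟨_ :: P, f, E, f', E', rfl, rfl, h3, h4⟩)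
    | left _ h2 =>
      exact Or.inr (Or.inr ⟨[], _, C, _, _, rfl, rfl, h2, h⟩)

/-- position of the first node of an inner path relative to the spine -/
theorem inside_start {T T0 : Prog K w n ℓ} {C : List (Frame K w n ℓ)} (h : Path T C T0) :
    ∀ {D : List (Frame K w n ℓ)}, Inside T D →
    (∃ f ∈ C, Inside f.2 D) ∨ Inside T0 D ∨
    (∃ (C1 C2 : List (Frame K w n ℓ)) (v u : Prog K w n ℓ), C = C1 ++ C2 ∧ Path v C2 T0 ∧
      Path v D u) := by
  induction h with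
  | nil T => intro D hD; exact Or.inr (Or.inl hD)
  | @left B l r C T' h ih =>
    intro D hD
    obtain ⟨C0, v, u, h1, h2⟩ := hD
    cases h1 with
    | nil => exact Or.inr (Or.inr ⟨[], _, _, u, rfl, Path.left r h, h2⟩)
    | left _ h1 =>
      rcases ih ⟨_, v, u, h1, h2⟩ with ⟨f, hf, h3⟩ | h3 | ⟨C1, C2, v', u', rfl, h3, h4⟩
      · exact Or.inl ⟨f, List.mem_cons_of_mem _ hf, h3⟩
      · exact Or.inr (Or.inl h3)
      · exact Or.inr (Or.inr ⟨_ :: C1, C2, v', u', rfl, h3, h4⟩)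
    | right _ h1 => exact Or.inl ⟨_, List.mem_cons_self, _, v, u, h1, h2⟩
  | @right B l r C T' h ih =>
    intro D hD
    obtain ⟨C0, v, u, h1, h2⟩ := hD
    cases h1 with
    | nil => exact Or.inr (Or.inr ⟨[], _, _, u, rfl, Path.right l h, h2⟩)
    | right _ h1 =>
      rcases ih ⟨_, v, u, h1, h2⟩ with ⟨f, hf, h3⟩ | h3 | ⟨C1, C2, v', u', rfl, h3, h4⟩
      · exact Or.inl ⟨f, List.mem_cons_of_mem _ hf, h3⟩
      · exact Or.inr (Or.inl h3)
      · exact Or.inr (Or.inr ⟨_ :: C1, C2, v', u', rfl, h3, h4⟩)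
    | left _ h1 => exact Or.inl ⟨_, List.mem_cons_self, _, v, u, h1, h2⟩

/-- all inner paths, compared with the spine -/
theorem inside_cases {T T0 : Prog K w n ℓ} {C : List (Frame K w n ℓ)} (h : Path T C T0)
    {D : List (Frame K w n ℓ)} (hD : Inside T D) :
    (∃ f ∈ C, Inside f.2 D) ∨ Inside T0 D ∨ D <:+: C ∨
    (∃ E F, D = E ++ F ∧ E <:+: C ∧ Inside T0 F) ∨
    (∃ (P : List (Frame K w n ℓ)) (f f' : Frame K w n ℓ) (E E' : List (Frame K w n ℓ)),
      D = P ++ f' :: E' ∧ P <:+: C ∧ E <:+: C ∧ f ∈ C ∧ Inside f.2 E' ∧ Path f'.2 E T0) := by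
  rcases inside_start h hD with h1 | h1 | ⟨C1, C2, v, u, rfl, h1, h2⟩
  · exact Or.inl h1
  · exact Or.inr (Or.inl h1)
  · rcases path_compare h1 h2 with ⟨E, rfl⟩ | ⟨E, rfl, hE⟩ | ⟨P, f, E, f', E', rfl, rfl, h3, h4⟩
    · refine Or.inr (Or.inr (Or.inl ⟨C1, E, ?_⟩))
      simp
    · exact Or.inr (Or.inr (Or.inr (Or.inl ⟨C2, E, rfl, ⟨C1, [], by simp⟩,
        ⟨[], T0, u, Path.nil _, hE⟩⟩)))
    · refine Or.inr (Or.inr (Or.inr (Or.inr ⟨P, f, f', E, E', rfl, ⟨C1, f :: E, by simp⟩,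
        ⟨C1 ++ P ++ [f], [], by simp⟩, by simp, ⟨[], f.2, u, Path.nil _, h3⟩, h4⟩)))

end Pool.Agent.Helper8.LTree
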