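import Pool.Agent.Helper8.RGL.Cls
import Pool.Agent.Helper8.T2.H2

/-!
Local representation of trees over read-once formulas.
-/

namespace Pool.Agent.Helper8.RGL

open MvPolynomial
open Pool.Agent.Helper8.T2 (coefAlg mem_coefAlg C_mem_coefAlg coefAlg_mono cxSet card_cxSet cx_mem
  tpar exists_family)

variable {w n ℓ : ℕ}

/-- computed by a tree of register number at most `s` -/
def TreeLe (l w n : ℕ) (p : Fin w → MvPolynomial (Fin n) ℚ) (r : Fin n → ℕ) (s : ℕ) : Prop :=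
  ∃ s' ≤ s, Tree l w n p r s'

theorem TreeLe.mono {p : Fin w → MvPolynomial (Fin n) ℚ} {r : Fin n → ℕ} {s t : ℕ} (hs : s ≤ t)
    (h : TreeLe (ℓ + 1) w n p r s) : TreeLe (ℓ + 1) w n p r t := by
  obtain ⟨s', h1, h2⟩ := h
  exact ⟨s', h1.trans hs, h2⟩

theorem Tree.le {p : Fin w → MvPolynomial (Fin n) ℚ} {r : Fin n → ℕ} {s : ℕ}
    (h : Tree (ℓ + 1) w n p r s) : TreeLe (ℓ + 1) w n p r s := ⟨s, le_rfl, h⟩

theorem le_reg_left' (s t : ℕ) : s ≤ reg s t := by
  unfold reg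
  split_ifs <;> omega

theorem le_reg_right' (s t : ℕ) : t ≤ reg s t := by
  unfold reg
  split_ifs <;> omega

section

variable {ρ : ℕ}
  (Ψ : MvPolynomial (Fin n) ℚ →ₐ[ℚ] MvPolynomial (Fin ρ) (MvPolynomial (Fin n) ℚ))
  (I : Finset (Fin n))

theorem Psi_const (c : ℚ) : Ψ (C c) = C (C c) := by
  have := Ψ.commutes c
  rw [MvPolynomial.algebraMap_apply] at this
  exact this

theorem unmarked_leaf (hΨ : ∀ i, i ∉ I → Ψ (X i) = C (X i)) {i : Fin n} (hi : i ∉ I)
    (P : Polynomial ℚ) : Ψ (Polynomial.aeval (X i) P) = C (Polynomial.aeval (X i) P) := by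
  rw [← Polynomial.aeval_algHom_apply, hΨ i hi]
  have h2 := Polynomial.aeval_algHom_apply
    (IsScalarTower.toAlgHom ℚ (MvPolynomial (Fin n) ℚ)
      (MvPolynomial (Fin ρ) (MvPolynomial (Fin n) ℚ))) (X i) P
  exact h2

/-- polynomials without marked variables are not changed -/
theorem unmarked_vars (hΨ : ∀ i, i ∉ I → Ψ (X i) = C (X i)) {f : MvPolynomial (Fin n) ℚ}
    {S : Finset (Fin n)} (hf : f.vars ⊆ S) (hd : Disjoint S I) : Ψ f = C f := by
  have h1 : f ∈ supported ℚ (S : Set (Fin n)) := by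
    rw [mem_supported]; exact_mod_cast hf
  rw [supported_eq_adjoin_X] at h1
  clear hf
  induction h1 using Algebra.adjoin_induction with
  | mem x hx =>
    obtain ⟨i, hi, rfl⟩ := hx
    exact hΨ i (Finset.disjoint_left.1 hd hi)
  | algebraMap r => exact Psi_const Ψ r
  | add x y _ _ hx hy => rw [map_add, map_add, hx, hy]
  | mul x y _ _ hx hy => rw [map_mul, map_mul, hx, hy]

/-- the coefficients of the image of a polynomial in few variables -/
theorem mem_of_vars (hΨ' : ∀ i, Ψ (X i) ∈ coefAlg (Algebra.adjoin ℚ {(X i : MvPolynomial (Fin n) ℚ)}))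
    {f : MvPolynomial (Fin n) ℚ} {S : Finset (Fin n)} (hf : f.vars ⊆ S) :
    Ψ f ∈ coefAlg (Algebra.adjoin ℚ (X '' (S : Set (Fin n)))) := by
  have h1 : f ∈ supported ℚ (S : Set (Fin n)) := by
    rw [mem_supported]; exact_mod_cast hf
  rw [supported_eq_adjoin_X] at h1
  clear hf
  induction h1 using Algebra.adjoin_induction with
  | mem x hx =>
    obtain ⟨i, hi, rfl⟩ := hx
    exact coefAlg_mono (Algebra.adjoin_mono (Set.singleton_subset_iff.2
      (Set.mem_image_of_mem X hi))) (hΨ' i)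
  | algebraMap r =>
    have := Ψ.commutes r
    rw [this]
    exact Subalgebra.algebraMap_mem _ _
  | add x y _ _ hx hy => rw [map_add]; exact Subalgebra.add_mem _ hx hy
  | mul x y _ _ hx hy => rw [map_mul]; exact Subalgebra.mul_mem _ hx hy

/-- read-once formulas without marked variables are not changed -/
theorem unmarked_once (hΨ : ∀ i, i ∉ I → Ψ (X i) = C (X i)) {f : MvPolynomial (Fin n) ℚ}
    {S : Finset (Fin n)} (h : ReadOnce f S) : Disjoint S I → Ψ f = C f := by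
  induction h with
  | const c => intro _; exact Psi_const Ψ c
  | leaf i F =>
    intro hd
    exact unmarked_leaf Ψ I hΨ (Finset.disjoint_left.1 hd (Finset.mem_singleton_self i)) F
  | add _ _ _ ih1 ih2 =>
    intro hd
    rw [Finset.disjoint_union_left] at hd
    rw [map_add, map_add, ih1 hd.1, ih2 hd.2]
  | mul _ _ _ ih1 ih2 =>
    intro hd
    rw [Finset.disjoint_union_left] at hd
    rw [map_mul, map_mul, ih1 hd.1, ih2 hd.2]

/-- trees without marked variables are not changed -/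
theorem unmarked (hΨ : ∀ i, i ∉ I → Ψ (X i) = C (X i)) {p : Fin w → MvPolynomial (Fin n) ℚ}
    {r : Fin n → ℕ} {s : ℕ} (h : Tree (ℓ + 1) w n p r s) :
    (∀ i ∈ I, r i = 0) → ∀ a, Ψ (p a) = C (p a) := by
  induction h with
  | const v => intro _ a; exact Psi_const Ψ (v a)
  | leaf S hS F hF =>
    intro hr a
    apply unmarked_vars Ψ I hΨ (hF a)
    rw [Finset.disjoint_left]
    intro i hi hi'
    have := hr i hi'
    dsimp only at this
    rw [if_pos hi] at this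
    omega
  | @once f S h =>
    intro hr a
    apply unmarked_once Ψ I hΨ h
    rw [Finset.disjoint_left]
    intro i hi hi'
    have := hr i hi'
    dsimp only at this
    rw [if_pos hi] at this
    omega
  | affine M v _ ih =>
    intro hr a
    simp only [map_add, map_sum, map_mul, ih hr, Psi_const Ψ]
  | add _ _ hp hq =>
    intro hr a
    rw [Pi.add_apply, map_add, map_add, hp (fun i hi => by
      have := hr i hi; rw [Pi.add_apply] at this; omega) a, hq (fun i hi => by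
      have := hr i hi; rw [Pi.add_apply] at this; omega) a]
  | gate B _ _ hp hq =>
    intro hr a
    have hp' := hp (fun i hi => by
      have := hr i hi; rw [Pi.add_apply] at this; omega)
    have hq' := hq (fun i hi => by
      have := hr i hi; rw [Pi.add_apply] at this; omega)
    simp only [map_sum, map_mul, hp', hq', Psi_const Ψ]

/-- an affine context -/
structure Cx (ℓ : ℕ) (A : Fin w → Fin w → MvPolynomial (Fin n) ℚ)
    (v : Fin w → MvPolynomial (Fin n) ℚ) (r : Fin n → ℕ) (s : ℕ) : Prop where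
  form : ∀ y : Fin w → ℚ, TreeLe (ℓ + 1) w n (fun a => ∑ b, A a b * C (y b) + v a) r s

theorem Cx.vec {A : Fin w → Fin w → MvPolynomial (Fin n) ℚ} {v : Fin w → MvPolynomial (Fin n) ℚ}
    {r : Fin n → ℕ} {s : ℕ} (h : Cx ℓ A v r s) : TreeLe (ℓ + 1) w n v r s := by
  have := h.form 0
  simpa using this

theorem Cx.col {A : Fin w → Fin w → MvPolynomial (Fin n) ℚ} {v : Fin w → MvPolynomial (Fin n) ℚ}
    {r : Fin n → ℕ} {s : ℕ} (h : Cx ℓ A v r s) (b : Fin w) :
    TreeLe (ℓ + 1) w n (fun a => A a b + v a) r s := by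
  classical
  have := h.form (Pi.single b 1)
  convert this using 2 with a
  rw [Finset.sum_eq_single b]
  · simp
  · intro c _ hc; simp [Pi.single_eq_of_ne hc]
  · intro h; exact absurd (Finset.mem_univ _) h

theorem Cx.mono {A : Fin w → Fin w → MvPolynomial (Fin n) ℚ} {v : Fin w → MvPolynomial (Fin n) ℚ}
    {r : Fin n → ℕ} {s t : ℕ} (hs : s ≤ t) (h : Cx ℓ A v r s) : Cx ℓ A v r t :=
  ⟨fun y => (h.form y).mono hs⟩

/-- membership of the elements of a context in the class -/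
theorem cx_class {A : Fin w → Fin w → MvPolynomial (Fin n) ℚ}
    {v : Fin w → MvPolynomial (Fin n) ℚ} {r : Fin n → ℕ} {s : ℕ} (h : Cx ℓ A v r s) :
    ∀ x ∈ cxSet A v, ∃ p', TreeLe (ℓ + 1) w n p' r s ∧ ∃ a : Fin w, p' a = x := by
  classical
  intro x hx
  unfold cxSet at hx
  rw [Finset.mem_union, Finset.mem_image, Finset.mem_image] at hx
  rcases hx with ⟨a, _, rfl⟩ | ⟨x, _, rfl⟩
  · exact ⟨v, h.vec, a, rfl⟩
  · exact ⟨_, h.col x.2, x.1, rfl⟩

/-- the value of a marked context under the shift -/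
theorem cx_shift (hΨ : ∀ i, i ∉ I → Ψ (X i) = C (X i))
    {A : Fin w → Fin w → MvPolynomial (Fin n) ℚ} {v z p : Fin w → MvPolynomial (Fin n) ℚ}
    {r : Fin n → ℕ} {s : ℕ} (h : Cx ℓ A v r s) (hr : ∀ i ∈ I, r i = 0)
    {S : Set (MvPolynomial (Fin n) ℚ)} (hS : (cxSet A v : Set (MvPolynomial (Fin n) ℚ)) ⊆ S)
    (hz : ∀ a, Ψ (z a) ∈ coefAlg (Algebra.adjoin ℚ S))
    (hp : ∀ a, p a = ∑ b, A a b * z b + v a) (a : Fin w) :
    Ψ (p a) ∈ coefAlg (Algebra.adjoin ℚ S) := by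
  obtain ⟨h1, h2⟩ := cx_mem hS
  obtain ⟨_, _, hvec⟩ := h.vec
  have hv := unmarked Ψ I hΨ hvec hr
  have hA : ∀ a b, Ψ (A a b) = C (A a b) := by
    intro a b
    obtain ⟨_, _, hcol⟩ := h.col b
    have h3 := unmarked Ψ I hΨ hcol hr a
    rw [map_add, map_add, hv a] at h3
    exact add_right_cancel h3
  rw [hp, map_add, map_sum, hv a]
  refine Subalgebra.add_mem _ (Subalgebra.sum_mem _ fun b _ => ?_) (C_mem_coefAlg (h1 a))
  rw [map_mul, hA]
  exact Subalgebra.mul_mem _ (C_mem_coefAlg (h2 a b)) (hz b)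

/-- the local representation -/
structure LRep (ℓ : ℕ) (p : Fin w → MvPolynomial (Fin n) ℚ) (r : Fin n → ℕ) (s : ℕ)
    (A : Fin w → Fin w → MvPolynomial (Fin n) ℚ) (v : Fin w → MvPolynomial (Fin n) ℚ)
    (r₁ : Fin n → ℕ) (z : Fin w → MvPolynomial (Fin n) ℚ)
    (S : Finset (MvPolynomial (Fin n) ℚ)) : Prop where
  cx : Cx ℓ A v r₁ s
  le : ∀ i, r₁ i ≤ r i
  zero : ∀ i ∈ I, r₁ i = 0
  eq : ∀ a, p a = ∑ b, A a b * z b + v a
  card : (∑ i ∈ I, r i = 0 ∧ S = ∅) ∨
    S.card + 2 * (w * (w + 1)) ≤ (∑ i ∈ I, r i) * (ℓ + 1 + 2 * (w * (w + 1)))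
  cls : ∀ x ∈ S, (∃ i, x = X i) ∨ ∃ p' r', TreeLe (ℓ + 1) w n p' r' s ∧ (∀ i, r' i ≤ r i) ∧
    ∃ a : Fin w, p' a = x
  mem : ∀ a, Ψ (z a) ∈ coefAlg (Algebra.adjoin ℚ (S : Set (MvPolynomial (Fin n) ℚ)))

theorem cx_one : Cx ℓ (w := w) (n := n) (fun a b => if a = b then 1 else 0) 0 0 0 := by
  classical
  refine ⟨fun y => ?_⟩
  have := (Tree.const (l := ℓ + 1) (n := n) y).le
  convert this using 2 with a
  simp

theorem cx_zero {p : Fin w → MvPolynomial (Fin n) ℚ} {r : Fin n → ℕ} {s : ℕ}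
    (h : TreeLe (ℓ + 1) w n p r s) : Cx ℓ (w := w) (n := n) (fun _ _ => 0) p r s := by
  refine ⟨fun y => ?_⟩
  convert h using 2 with a
  simp

theorem cx_add {A : Fin w → Fin w → MvPolynomial (Fin n) ℚ} {v q : Fin w → MvPolynomial (Fin n) ℚ}
    {r r' : Fin n → ℕ} {s s' : ℕ} (h : Cx ℓ A v r s) (hq : Tree (ℓ + 1) w n q r' s') :
    Cx ℓ A (v + q) (r + r') (reg s s') := by
  refine ⟨fun y => ?_⟩
  obtain ⟨t, ht, h1⟩ := h.form y
  refine ⟨_, reg_mono' ht le_rfl, ?_⟩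
  refine (Tree.add h1 hq).cast ?_ rfl rfl
  funext a
  rw [Pi.add_apply, Pi.add_apply, add_assoc]

theorem cx_affine {A : Fin w → Fin w → MvPolynomial (Fin n) ℚ}
    {v : Fin w → MvPolynomial (Fin n) ℚ} {r : Fin n → ℕ} {s : ℕ} (h : Cx ℓ A v r s)
    (M : Fin w → Fin w → ℚ) (u : Fin w → ℚ) :
    Cx ℓ (fun a b => ∑ b', C (M a b') * A b' b) (fun a => ∑ b', C (M a b') * v b' + C (u a)) r s := by
  refine ⟨fun y => ?_⟩
  obtain ⟨t, ht, h1⟩ := h.form y
  refine ⟨_, ht, ?_⟩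
  refine (Tree.affine M u h1).cast ?_ rfl rfl
  funext a
  rw [← add_assoc]
  congr 1
  simp only [mul_add, Finset.sum_add_distrib, Finset.mul_sum, Finset.sum_mul]
  congr 1
  rw [Finset.sum_comm]
  apply Finset.sum_congr rfl
  intro b _
  apply Finset.sum_congr rfl
  intro b' _
  ring

theorem cx_gate (B : Fin w → Fin w → Fin w → ℚ)
    {A : Fin w → Fin w → MvPolynomial (Fin n) ℚ} {v q : Fin w → MvPolynomial (Fin n) ℚ}
    {r r' : Fin n → ℕ} {s s' : ℕ} (h : Cx ℓ A v r s) (hq : Tree (ℓ + 1) w n q r' s') :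
    Cx ℓ (fun a b => ∑ b', ∑ c, C (B a b' c) * A b' b * q c)
      (fun a => ∑ b', ∑ c, C (B a b' c) * v b' * q c) (r + r') (reg s s') := by
  refine ⟨fun y => ?_⟩
  obtain ⟨t, ht, h1⟩ := h.form y
  refine ⟨_, reg_mono' ht le_rfl, ?_⟩
  refine (Tree.gate B h1 hq).cast ?_ rfl rfl
  funext a
  have h1 : ∀ b' c, C (B a b' c) * (∑ b, A b' b * C (y b) + v b') * q c =
      ∑ b, C (B a b' c) * A b' b * q c * C (y b) + C (B a b' c) * v b' * q c := by
    intro b' c
    rw [mul_add, add_mul, Finset.mul_sum, Finset.sum_mul]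
    congr 1
    apply Finset.sum_congr rfl
    intro b _
    ring
  simp only [h1, Finset.sum_add_distrib]
  congr 1
  simp only [Finset.sum_mul]
  rw [Finset.sum_comm]
  apply Finset.sum_congr rfl
  intro b' _
  exact Finset.sum_comm

variable {Ψ I}

theorem LRep.shift (hΨ : ∀ i, i ∉ I → Ψ (X i) = C (X i))
    {p : Fin w → MvPolynomial (Fin n) ℚ} {r : Fin n → ℕ} {s : ℕ}
    {A : Fin w → Fin w → MvPolynomial (Fin n) ℚ} {v : Fin w → MvPolynomial (Fin n) ℚ}
    {r₁ : Fin n → ℕ} {z : Fin w → MvPolynomial (Fin n) ℚ} {S : Finset (MvPolynomial (Fin n) ℚ)}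
    (h : LRep Ψ I ℓ p r s A v r₁ z S) {S' : Set (MvPolynomial (Fin n) ℚ)}
    (h1 : (S : Set (MvPolynomial (Fin n) ℚ)) ⊆ S')
    (h2 : (cxSet A v : Set (MvPolynomial (Fin n) ℚ)) ⊆ S') (a : Fin w) :
    Ψ (p a) ∈ coefAlg (Algebra.adjoin ℚ S') :=
  cx_shift Ψ I hΨ h.cx h.zero h2
    (fun a => coefAlg_mono (Algebra.adjoin_mono h1) (h.mem a)) h.eq a

theorem lrep_both (hΨ : ∀ i, i ∉ I → Ψ (X i) = C (X i))
    {p q : Fin w → MvPolynomial (Fin n) ℚ} {r r' : Fin n → ℕ} {s s' t : ℕ}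
    {A₁ A₂ : Fin w → Fin w → MvPolynomial (Fin n) ℚ} {v₁ v₂ : Fin w → MvPolynomial (Fin n) ℚ}
    {r₁ r₂ : Fin n → ℕ} {z₁ z₂ : Fin w → MvPolynomial (Fin n) ℚ}
    {S₁ S₂ : Finset (MvPolynomial (Fin n) ℚ)}
    (h₁ : LRep Ψ I ℓ p r s A₁ v₁ r₁ z₁ S₁) (h₂ : LRep Ψ I ℓ q r' s' A₂ v₂ r₂ z₂ S₂)
    (hs : s ≤ t) (hs' : s' ≤ t)
    (hr : ∑ i ∈ I, r i ≠ 0) (hr' : ∑ i ∈ I, r' i ≠ 0) (z : Fin w → MvPolynomial (Fin n) ℚ)
    (hz : ∀ S' : Subalgebra ℚ (MvPolynomial (Fin n) ℚ), (∀ a, Ψ (p a) ∈ coefAlg S') →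
      (∀ a, Ψ (q a) ∈ coefAlg S') → ∀ a, Ψ (z a) ∈ coefAlg S') :
    ∃ A v r₁ z' S, LRep Ψ I ℓ z (r + r') t A v r₁ z' S := by
  classical
  refine ⟨_, _, _, z, S₁ ∪ S₂ ∪ (cxSet A₁ v₁ ∪ cxSet A₂ v₂), ⟨cx_one.mono (Nat.zero_le t),
    fun _ => Nat.zero_le _, fun _ _ => rfl, fun a => by simp, Or.inr ?_, ?_, ?_⟩⟩
  · have e1 := (h₁.card.resolve_left fun h => hr h.1)
    have e2 := (h₂.card.resolve_left fun h => hr' h.1)
    have e3 := card_cxSet A₁ v₁
    have e4 := card_cxSet A₂ v₂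
    have e5 : (S₁ ∪ S₂ ∪ (cxSet A₁ v₁ ∪ cxSet A₂ v₂)).card ≤
        S₁.card + S₂.card + ((cxSet A₁ v₁).card + (cxSet A₂ v₂).card) :=
      (Finset.card_union_le _ _).trans (Nat.add_le_add (Finset.card_union_le _ _)
        (Finset.card_union_le _ _))
    have e6 : ∑ i ∈ I, (r + r') i = ∑ i ∈ I, r i + ∑ i ∈ I, r' i := by
      rw [← Finset.sum_add_distrib]; rfl
    rw [e6, Nat.add_mul]
    omega
  · intro x hx
    rw [Finset.mem_union, Finset.mem_union, Finset.mem_union] at hx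
    rcases hx with (hx | hx) | hx | hx
    · rcases h₁.cls x hx with h | ⟨p', r', a1, a2, a3⟩
      · exact Or.inl h
      · exact Or.inr ⟨p', r', a1.mono hs, fun i => (a2 i).trans (Nat.le_add_right _ _), a3⟩
    · rcases h₂.cls x hx with h | ⟨p', r', a1, a2, a3⟩
      · exact Or.inl h
      · exact Or.inr ⟨p', r', a1.mono hs', fun i => (a2 i).trans (Nat.le_add_left _ _), a3⟩
    · obtain ⟨p', a1, a3⟩ := cx_class h₁.cx x hx
      exact Or.inr ⟨p', r₁, a1.mono hs, fun i => (h₁.le i).trans (Nat.le_add_right _ _), a3⟩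
    · obtain ⟨p', a1, a3⟩ := cx_class h₂.cx x hx
      exact Or.inr ⟨p', r₂, a1.mono hs', fun i => (h₂.le i).trans (Nat.le_add_left _ _), a3⟩
  · apply hz
    · apply h₁.shift hΨ
      · intro x hx
        simp only [Finset.coe_union, Set.mem_union]
        exact Or.inl (Or.inl hx)
      · intro x hx
        simp only [Finset.coe_union, Set.mem_union]
        exact Or.inr (Or.inl hx)
    · apply h₂.shift hΨ
      · intro x hx
        simp only [Finset.coe_union, Set.mem_union]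
        exact Or.inl (Or.inr hx)
      · intro x hx
        simp only [Finset.coe_union, Set.mem_union]
        exact Or.inr (Or.inr hx)

theorem lrep_one {p : Fin w → MvPolynomial (Fin n) ℚ} {r r' r'' : Fin n → ℕ} {s t : ℕ}
    {A₁ A : Fin w → Fin w → MvPolynomial (Fin n) ℚ} {v₁ v : Fin w → MvPolynomial (Fin n) ℚ}
    {r₁ : Fin n → ℕ} {z₁ : Fin w → MvPolynomial (Fin n) ℚ}
    {S₁ : Finset (MvPolynomial (Fin n) ℚ)}
    (h₁ : LRep Ψ I ℓ p r s A₁ v₁ r₁ z₁ S₁) (hs : s ≤ t) (hr : ∑ i ∈ I, r' i = 0)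
    (hr' : r'' = r + r')
    (hcx : Cx ℓ A v (r₁ + r') t) (z : Fin w → MvPolynomial (Fin n) ℚ)
    (hz : ∀ a, z a = ∑ b, A a b * z₁ b + v a) :
    ∃ A v r₁ z' S, LRep Ψ I ℓ z r'' t A v r₁ z' S := by
  have hs' : ∀ i ∈ I, r' i = 0 := fun i hi => (Finset.sum_eq_zero_iff.mp hr) i hi
  have e6 : ∑ i ∈ I, (r + r') i = ∑ i ∈ I, r i := by
    have : ∑ i ∈ I, (r + r') i = ∑ i ∈ I, r i + ∑ i ∈ I, r' i := by
      rw [← Finset.sum_add_distrib]; rfl
    rw [this, hr, add_zero]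
  subst hr'
  refine ⟨A, v, r₁ + r', z₁, S₁, ⟨hcx, fun i => Nat.add_le_add_right (h₁.le i) _, fun i hi => ?_,
    hz, ?_, ?_, h₁.mem⟩⟩
  · rw [Pi.add_apply, h₁.zero i hi, hs' i hi]
  · rw [e6]; exact h₁.card
  · intro x hx
    rcases h₁.cls x hx with h | ⟨p', r', a1, a2, a3⟩
    · exact Or.inl h
    · exact Or.inr ⟨p', r', a1.mono hs, fun i => (a2 i).trans (Nat.le_add_right _ _), a3⟩

variable (Ψ I)

/-- the local representation of a read-once formula -/
structure SRep (f : MvPolynomial (Fin n) ℚ) (S : Finset (Fin n))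
    (α β : MvPolynomial (Fin n) ℚ) (S₁ : Finset (Fin n)) (z : MvPolynomial (Fin n) ℚ)
    (P : Finset (MvPolynomial (Fin n) ℚ)) : Prop where
  form : ∀ y : ℚ, ReadOnce (α * C y + β) S₁
  le : S₁ ⊆ S
  disj : Disjoint S₁ I
  eq : f = α * z + β
  card : (Disjoint S I ∧ P = ∅) ∨ P.card + 4 ≤ 5 * (S ∩ I).card
  cls : ∀ x ∈ P, (∃ i, x = X i) ∨ ∃ S' ⊆ S, ReadOnce x S'
  mem : Ψ z ∈ coefAlg (Algebra.adjoin ℚ (P : Set (MvPolynomial (Fin n) ℚ)))

variable {Ψ I}

theorem SRep.beta {f : MvPolynomial (Fin n) ℚ} {S : Finset (Fin n)}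
    {α β : MvPolynomial (Fin n) ℚ} {S₁ : Finset (Fin n)} {z : MvPolynomial (Fin n) ℚ}
    {P : Finset (MvPolynomial (Fin n) ℚ)} (h : SRep Ψ I f S α β S₁ z P) : ReadOnce β S₁ := by
  have := h.form 0
  rwa [C_0, mul_zero, zero_add] at this

theorem SRep.alpha {f : MvPolynomial (Fin n) ℚ} {S : Finset (Fin n)}
    {α β : MvPolynomial (Fin n) ℚ} {S₁ : Finset (Fin n)} {z : MvPolynomial (Fin n) ℚ}
    {P : Finset (MvPolynomial (Fin n) ℚ)} (h : SRep Ψ I f S α β S₁ z P) :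
    ReadOnce (α + β) S₁ := by
  have := h.form 1
  rwa [C_1, mul_one] at this

theorem SRep.shift (hΨ : ∀ i, i ∉ I → Ψ (X i) = C (X i)) {f : MvPolynomial (Fin n) ℚ}
    {S : Finset (Fin n)} {α β : MvPolynomial (Fin n) ℚ} {S₁ : Finset (Fin n)}
    {z : MvPolynomial (Fin n) ℚ} {P : Finset (MvPolynomial (Fin n) ℚ)}
    (h : SRep Ψ I f S α β S₁ z P) {S' : Subalgebra ℚ (MvPolynomial (Fin n) ℚ)}
    (h1 : ∀ x ∈ P, x ∈ S') (h2 : β ∈ S') (h3 : α + β ∈ S') : Ψ f ∈ coefAlg S' := by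
  have e1 := unmarked_once Ψ I hΨ h.beta h.disj
  have e2 := unmarked_once Ψ I hΨ h.alpha h.disj
  have e3 : Ψ α = C α := by
    rw [map_add, map_add, e1] at e2
    exact add_right_cancel e2
  have h4 : α ∈ S' := by
    have := sub_mem h3 h2
    rwa [add_sub_cancel_right] at this
  rw [h.eq, map_add, map_mul, e1, e3]
  refine add_mem (mul_mem (C_mem_coefAlg h4) ?_) (C_mem_coefAlg h2)
  exact coefAlg_mono (Algebra.adjoin_le fun x hx => h1 x hx) h.mem

theorem SRep.card_set {f : MvPolynomial (Fin n) ℚ} {S : Finset (Fin n)}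
    {α β : MvPolynomial (Fin n) ℚ} {S₁ : Finset (Fin n)} {z : MvPolynomial (Fin n) ℚ}
    {P : Finset (MvPolynomial (Fin n) ℚ)} (h : SRep Ψ I f S α β S₁ z P) (hS : ¬ Disjoint S I) :
    P.card + 4 ≤ 5 * (S ∩ I).card := h.card.resolve_left fun h => hS h.1

theorem srep_both (hΨ : ∀ i, i ∉ I → Ψ (X i) = C (X i)) {f g h : MvPolynomial (Fin n) ℚ}
    {S T : Finset (Fin n)} (hd : Disjoint S T)
    {α₁ β₁ α₂ β₂ z₁ z₂ : MvPolynomial (Fin n) ℚ} {S₁ S₂ : Finset (Fin n)}
    {P₁ P₂ : Finset (MvPolynomial (Fin n) ℚ)}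
    (h₁ : SRep Ψ I f S α₁ β₁ S₁ z₁ P₁) (h₂ : SRep Ψ I g T α₂ β₂ S₂ z₂ P₂)
    (hS : ¬ Disjoint S I) (hT : ¬ Disjoint T I)
    (hz : ∀ S' : Subalgebra ℚ (MvPolynomial (Fin n) ℚ), Ψ f ∈ coefAlg S' → Ψ g ∈ coefAlg S' →
      Ψ h ∈ coefAlg S') :
    ∃ α β S₁ z P, SRep Ψ I h (S ∪ T) α β S₁ z P := by
  classical
  refine ⟨1, 0, ∅, h, P₁ ∪ P₂ ∪ ({β₁, α₁ + β₁} ∪ {β₂, α₂ + β₂}), fun y => ?_,
    Finset.empty_subset _, Finset.disjoint_empty_left _, by simp, Or.inr ?_, ?_, ?_⟩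
  · rw [one_mul, add_zero]; exact ReadOnce.const y
  · have e1 := h₁.card_set hS
    have e2 := h₂.card_set hT
    have e3 : (({β₁, α₁ + β₁} : Finset (MvPolynomial (Fin n) ℚ))).card ≤ 2 := Finset.card_le_two
    have e4 : (({β₂, α₂ + β₂} : Finset (MvPolynomial (Fin n) ℚ))).card ≤ 2 := Finset.card_le_two
    have e5 : (P₁ ∪ P₂ ∪ ({β₁, α₁ + β₁} ∪ {β₂, α₂ + β₂})).card ≤
        P₁.card + P₂.card + (({β₁, α₁ + β₁} : Finset (MvPolynomial (Fin n) ℚ)).card +
          ({β₂, α₂ + β₂} : Finset (MvPolynomial (Fin n) ℚ)).card) :=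
      (Finset.card_union_le _ _).trans (Nat.add_le_add (Finset.card_union_le _ _)
        (Finset.card_union_le _ _))
    have e6 : ((S ∪ T) ∩ I).card = (S ∩ I).card + (T ∩ I).card := by
      rw [Finset.union_inter_distrib_right, Finset.card_union_of_disjoint]
      exact Finset.disjoint_of_subset_left Finset.inter_subset_left
        (Finset.disjoint_of_subset_right Finset.inter_subset_left hd)
    rw [e6]
    omega
  · intro x hx
    simp only [Finset.mem_union, Finset.mem_insert, Finset.mem_singleton] at hx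
    rcases hx with (hx | hx) | (rfl | rfl) | (rfl | rfl)
    · rcases h₁.cls x hx with h | ⟨S', h1, h2⟩
      · exact Or.inl h
      · exact Or.inr ⟨S', h1.trans Finset.subset_union_left, h2⟩
    · rcases h₂.cls x hx with h | ⟨S', h1, h2⟩
      · exact Or.inl h
      · exact Or.inr ⟨S', h1.trans Finset.subset_union_right, h2⟩
    · exact Or.inr ⟨S₁, h₁.le.trans Finset.subset_union_left, h₁.beta⟩
    · exact Or.inr ⟨S₁, h₁.le.trans Finset.subset_union_left, h₁.alpha⟩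
    · exact Or.inr ⟨S₂, h₂.le.trans Finset.subset_union_right, h₂.beta⟩
    · exact Or.inr ⟨S₂, h₂.le.trans Finset.subset_union_right, h₂.alpha⟩
  · have hsub : ∀ x ∈ P₁ ∪ P₂ ∪ ({β₁, α₁ + β₁} ∪ {β₂, α₂ + β₂}), x ∈ Algebra.adjoin ℚ
        ((P₁ ∪ P₂ ∪ ({β₁, α₁ + β₁} ∪ {β₂, α₂ + β₂}) : Finset (MvPolynomial (Fin n) ℚ)) :
          Set (MvPolynomial (Fin n) ℚ)) := fun x hx => Algebra.subset_adjoin hx
    apply hz
    · apply h₁.shift hΨ
      · intro x hx; exact hsub x (by simp [hx])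
      · exact hsub _ (by simp)
      · exact hsub _ (by simp)
    · apply h₂.shift hΨ
      · intro x hx; exact hsub x (by simp [hx])
      · exact hsub _ (by simp)
      · exact hsub _ (by simp)

theorem srep_one {f h : MvPolynomial (Fin n) ℚ} {S T : Finset (Fin n)} (hT : Disjoint T I)
    {α₁ β₁ z₁ α β : MvPolynomial (Fin n) ℚ} {S₁ : Finset (Fin n)}
    {P₁ : Finset (MvPolynomial (Fin n) ℚ)} (h₁ : SRep Ψ I f S α₁ β₁ S₁ z₁ P₁)
    {U : Finset (Fin n)} (hU : U = S ∪ T) (hform : ∀ y : ℚ, ReadOnce (α * C y + β) (S₁ ∪ T))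
    (heq : h = α * z₁ + β) : ∃ α β S₁ z P, SRep Ψ I h U α β S₁ z P := by
  classical
  subst hU
  refine ⟨α, β, S₁ ∪ T, z₁, P₁, hform, Finset.union_subset_union_left h₁.le,
    Finset.disjoint_union_left.2 ⟨h₁.disj, hT⟩, heq, ?_, ?_, h₁.mem⟩
  · rcases h₁.card with ⟨h2, h3⟩ | h2
    · exact Or.inl ⟨Finset.disjoint_union_left.2 ⟨h2, hT⟩, h3⟩
    · right
      have e6 : (S ∪ T) ∩ I = S ∩ I := by
        rw [Finset.union_inter_distrib_right, Finset.disjoint_iff_inter_eq_empty.1 hT,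
          Finset.union_empty]
      rw [e6]
      exact h2
  · intro x hx
    rcases h₁.cls x hx with h | ⟨S', h1, h2⟩
    · exact Or.inl h
    · exact Or.inr ⟨S', h1.trans Finset.subset_union_left, h2⟩

variable (Ψ I)

theorem exists_srep (hΨ : ∀ i, i ∉ I → Ψ (X i) = C (X i))
    (hΨ' : ∀ i, Ψ (X i) ∈ coefAlg (Algebra.adjoin ℚ {(X i : MvPolynomial (Fin n) ℚ)}))
    {f : MvPolynomial (Fin n) ℚ} {S : Finset (Fin n)} (h : ReadOnce f S) :
    ∃ α β S₁ z P, SRep Ψ I f S α β S₁ z P := by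
  classical
  induction h with
  | const c =>
    refine ⟨0, C c, ∅, 0, ∅, fun y => ?_, subset_rfl, Finset.disjoint_empty_left _, by simp,
      Or.inl ⟨Finset.disjoint_empty_left _, rfl⟩, by simp, ?_⟩
    · rw [zero_mul, zero_add]; exact ReadOnce.const c
    · rw [map_zero]; exact Subalgebra.zero_mem _
  | leaf i F =>
    by_cases hi : i ∈ I
    · refine ⟨1, 0, ∅, Polynomial.aeval (X i) F, {X i}, fun y => ?_, Finset.empty_subset _,
        Finset.disjoint_empty_left _, by simp, Or.inr ?_, ?_, ?_⟩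
      · rw [one_mul, add_zero]; exact ReadOnce.const y
      · have : ({i} : Finset (Fin n)) ∩ I = {i} :=
          Finset.inter_eq_left.2 (Finset.singleton_subset_iff.2 hi)
        rw [this]
        simp
      · intro x hx
        left
        exact ⟨i, Finset.mem_singleton.mp hx⟩
      · rw [← Polynomial.aeval_algHom_apply]
        have h1 := hΨ' i
        rw [Finset.coe_singleton]
        exact (Algebra.adjoin_le (Set.singleton_subset_iff.mpr h1))
          (Polynomial.aeval_mem_adjoin_singleton ℚ (Ψ (X i)))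
    · have hd : Disjoint ({i} : Finset (Fin n)) I := Finset.disjoint_singleton_left.2 hi
      refine ⟨0, Polynomial.aeval (X i) F, {i}, 0, ∅, fun y => ?_, subset_rfl, hd, by simp,
        Or.inl ⟨hd, rfl⟩, by simp, ?_⟩
      · rw [zero_mul, zero_add]; exact ReadOnce.leaf i F
      · rw [map_zero]; exact Subalgebra.zero_mem _
  | @add f g S T hd hf hg ih1 ih2 =>
    obtain ⟨α₁, β₁, S₁, z₁, P₁, h₁⟩ := ih1
    obtain ⟨α₂, β₂, S₂, z₂, P₂, h₂⟩ := ih2
    by_cases hT : Disjoint T I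
    · apply srep_one hT h₁ rfl (α := α₁) (β := β₁ + g)
      · intro y
        rw [← add_assoc]
        exact ReadOnce.add (Finset.disjoint_of_subset_left h₁.le hd) (h₁.form y) hg
      · rw [h₁.eq]; ring
    by_cases hS : Disjoint S I
    · apply srep_one hS h₂ (Finset.union_comm _ _) (α := α₂) (β := β₂ + f)
      · intro y
        rw [← add_assoc]
        exact ReadOnce.add (Finset.disjoint_of_subset_left h₂.le hd.symm) (h₂.form y) hf
      · rw [h₂.eq]; ring
    · apply srep_both hΨ hd h₁ h₂ hS hT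
      intro S' h1 h2
      rw [map_add]
      exact add_mem h1 h2
  | @mul f g S T hd hf hg ih1 ih2 =>
    obtain ⟨α₁, β₁, S₁, z₁, P₁, h₁⟩ := ih1
    obtain ⟨α₂, β₂, S₂, z₂, P₂, h₂⟩ := ih2
    by_cases hT : Disjoint T I
    · apply srep_one hT h₁ rfl (α := α₁ * g) (β := β₁ * g)
      · intro y
        have := ReadOnce.mul (Finset.disjoint_of_subset_left h₁.le hd) (h₁.form y) hg
        have e : (α₁ * C y + β₁) * g = α₁ * g * C y + β₁ * g := by ring
        rwa [e] at this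
      · rw [h₁.eq]; ring
    by_cases hS : Disjoint S I
    · apply srep_one hS h₂ (Finset.union_comm _ _) (α := α₂ * f) (β := β₂ * f)
      · intro y
        have := ReadOnce.mul (Finset.disjoint_of_subset_left h₂.le hd.symm) (h₂.form y) hf
        have e : (α₂ * C y + β₂) * f = α₂ * f * C y + β₂ * f := by ring
        rwa [e] at this
      · rw [h₂.eq]; ring
    · apply srep_both hΨ hd h₁ h₂ hS hT
      intro S' h1 h2
      rw [map_mul]
      exact mul_mem h1 h2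

theorem sum_ind (I S : Finset (Fin n)) :
    ∑ i ∈ I, (if i ∈ S then 1 else 0 : ℕ) = (S ∩ I).card := by
  rw [Finset.sum_ite_mem, Finset.inter_comm]
  simp

theorem lrep_once (hw : 0 < w) {f : MvPolynomial (Fin n) ℚ} {S : Finset (Fin n)}
    {α β : MvPolynomial (Fin n) ℚ} {S₁ : Finset (Fin n)} {z : MvPolynomial (Fin n) ℚ}
    {P : Finset (MvPolynomial (Fin n) ℚ)} (h : SRep Ψ I f S α β S₁ z P) :
    ∃ A v r₁ z' S', LRep (w := w) Ψ I ℓ (fun _ => f) (fun i => if i ∈ S then 1 else 0) 0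
      A v r₁ z' S' := by
  classical
  refine ⟨fun _ b => if b = ⟨0, hw⟩ then α else 0, fun _ => β, fun i => if i ∈ S₁ then 1 else 0,
    fun _ => z, P, ⟨fun y => ?_⟩, fun i => ?_, fun i hi => ?_, fun a => ?_, ?_, ?_, fun _ => h.mem⟩
  · refine ((Tree.once (h.form (y ⟨0, hw⟩))).cast ?_ rfl rfl).le
    funext a
    rw [Finset.sum_eq_single (⟨0, hw⟩ : Fin w)]
    · simp
    · intro b _ hb; simp [hb]
    · intro h; exact absurd (Finset.mem_univ _) h
  · by_cases hi : i ∈ S₁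
    · rw [if_pos hi, if_pos (h.le hi)]
    · rw [if_neg hi]; exact Nat.zero_le _
  · rw [if_neg]
    intro h1
    exact Finset.disjoint_left.1 h.disj h1 hi
  · rw [Finset.sum_eq_single (⟨0, hw⟩ : Fin w)]
    · simp only [if_true]; exact h.eq
    · intro b _ hb; simp [hb]
    · intro h; exact absurd (Finset.mem_univ _) h
  · rw [sum_ind]
    rcases h.card with ⟨h1, h2⟩ | h1
    · left
      refine ⟨?_, h2⟩
      rw [Finset.disjoint_iff_inter_eq_empty.1 h1, Finset.card_empty]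
    · right
      set q := (S ∩ I).card
      have h2 : 2 ≤ w * (w + 1) := by nlinarith
      obtain ⟨W, hW⟩ : ∃ W, w * (w + 1) = W + 2 := ⟨w * (w + 1) - 2, by omega⟩
      rw [hW]
      have h3 : 1 ≤ q := by omega
      obtain ⟨q', hq'⟩ : ∃ q', q = q' + 1 := ⟨q - 1, by omega⟩
      rw [hq'] at h1 ⊢
      have h4 : (q' + 1) * (ℓ + 1 + 2 * (W + 2)) =
          (q' + 1) * ℓ + 5 * (q' + 1) + 2 * (q' * W) + 2 * W := by ring
      rw [h4]
      omega
  · intro x hx
    rcases h.cls x hx with h1 | ⟨S', h1, h2⟩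
    · exact Or.inl h1
    · refine Or.inr ⟨fun _ => x, fun i => if i ∈ S' then 1 else 0, (Tree.once h2).le, fun i => ?_,
        ⟨0, hw⟩, rfl⟩
      dsimp only
      by_cases hi : i ∈ S'
      · rw [if_pos hi, if_pos (h1 hi)]
      · rw [if_neg hi]; exact Nat.zero_le _

/-- **Local representation.** -/
theorem exists_lrep (hw : 0 < w) (hΨ : ∀ i, i ∉ I → Ψ (X i) = C (X i))
    (hΨ' : ∀ i, Ψ (X i) ∈ coefAlg (Algebra.adjoin ℚ {(X i : MvPolynomial (Fin n) ℚ)}))
    {p : Fin w → MvPolynomial (Fin n) ℚ} {r : Fin n → ℕ} {s : ℕ} (h : Tree (ℓ + 1) w n p r s) :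
    ∃ A v r₁ z S, LRep Ψ I ℓ p r s A v r₁ z S := by
  classical
  induction h with
  | const v =>
    exact ⟨_, _, _, 0, ∅, ⟨cx_zero (Tree.const v).le, fun _ => le_rfl, fun _ _ => rfl,
      fun a => by simp, Or.inl ⟨by simp, rfl⟩, by simp, fun a => by
        rw [Pi.zero_apply, map_zero]; exact Subalgebra.zero_mem _⟩⟩
  | leaf B hB F hF =>
    by_cases hd : Disjoint B I
    · have hz : ∀ i ∈ I, (if i ∈ B then 1 else 0 : ℕ) = 0 := by
        intro i hi
        rw [if_neg]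
        intro h1
        exact Finset.disjoint_left.1 hd h1 hi
      refine ⟨_, _, _, 0, ∅, ⟨cx_zero (Tree.leaf B hB F hF).le, fun _ => le_rfl, hz,
        fun a => by simp, Or.inl ⟨Finset.sum_eq_zero hz, rfl⟩, by simp, fun a => by
          rw [Pi.zero_apply, map_zero]; exact Subalgebra.zero_mem _⟩⟩
    · refine ⟨_, _, _, F, B.image X, ⟨cx_one, fun _ => Nat.zero_le _, fun _ _ => rfl,
        fun a => by simp, Or.inr ?_, ?_, ?_⟩⟩
      · have h1 : 1 ≤ ∑ i ∈ I, (if i ∈ B then 1 else 0 : ℕ) := by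
          rw [Finset.not_disjoint_iff] at hd
          obtain ⟨i, hi, hi'⟩ := hd
          have h2 : (if i ∈ B then 1 else 0 : ℕ) = 1 := if_pos hi
          refine h2.ge.trans ?_
          exact Finset.single_le_sum (f := fun i => (if i ∈ B then 1 else 0 : ℕ))
            (fun _ _ => Nat.zero_le _) hi'
        have h3 : (B.image (X : Fin n → MvPolynomial (Fin n) ℚ)).card ≤ ℓ + 1 :=
          Finset.card_image_le.trans hB
        have h4 := Nat.mul_le_mul_right (ℓ + 1 + 2 * (w * (w + 1))) h1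
        omega
      · intro x hx
        left
        obtain ⟨i, _, rfl⟩ := Finset.mem_image.1 hx
        exact ⟨i, rfl⟩
      · intro a
        have := mem_of_vars Ψ hΨ' (hF a)
        rwa [Finset.coe_image]
  | once h =>
    obtain ⟨α, β, S₁, z, P, h1⟩ := exists_srep Ψ I hΨ hΨ' h
    exact lrep_once Ψ I hw h1
  | @affine M u p r s hp0 ih =>
    obtain ⟨A₁, v₁, r₁, z₁, S₁, h₁⟩ := ih
    apply lrep_one h₁ le_rfl (r' := 0) (by simp) (by simp) (A := fun a b =>
      ∑ b', C (M a b') * A₁ b' b) (v := fun a => ∑ b', C (M a b') * v₁ b' + C (u a))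
    · rw [add_zero]; exact cx_affine h₁.cx M u
    · intro a
      rw [← add_assoc]
      congr 1
      simp only [h₁.eq, mul_add, Finset.sum_add_distrib, Finset.mul_sum, Finset.sum_mul]
      congr 1
      rw [Finset.sum_comm]
      apply Finset.sum_congr rfl
      intro b _
      apply Finset.sum_congr rfl
      intro b' _
      ring
  | @add p q r r' s s' hp0 hq0 hp hq =>
    obtain ⟨A₁, v₁, r₁, z₁, S₁, h₁⟩ := hp
    obtain ⟨A₂, v₂, r₂, z₂, S₂, h₂⟩ := hq
    by_cases hs : ∑ i ∈ I, r' i = 0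
    · apply lrep_one h₁ (le_reg_left' _ _) hs rfl (cx_add h₁.cx hq0)
      intro a
      rw [Pi.add_apply, Pi.add_apply, h₁.eq a, add_assoc]
    by_cases hr : ∑ i ∈ I, r i = 0
    · have h3 : q + p = p + q := add_comm _ _
      rw [← h3, reg_comm']
      apply lrep_one h₂ (le_reg_left' _ _) hr (add_comm _ _) (cx_add h₂.cx hp0)
      intro a
      rw [Pi.add_apply, Pi.add_apply, h₂.eq a, add_assoc]
    · apply lrep_both hΨ h₁ h₂ (le_reg_left' _ _) (le_reg_right' _ _) hr hs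
      intro S' h1 h2 a
      rw [Pi.add_apply, map_add]
      exact Subalgebra.add_mem _ (h1 a) (h2 a)
  | @gate B p q r r' s s' hp0 hq0 hp hq =>
    obtain ⟨A₁, v₁, r₁, z₁, S₁, h₁⟩ := hp
    obtain ⟨A₂, v₂, r₂, z₂, S₂, h₂⟩ := hq
    have key : ∀ (B : Fin w → Fin w → Fin w → ℚ) (A : Fin w → Fin w → MvPolynomial (Fin n) ℚ)
        (v z p q : Fin w → MvPolynomial (Fin n) ℚ), (∀ a, p a = ∑ b, A a b * z b + v a) →
        ∀ a, ∑ b, ∑ c, C (B a b c) * p b * q c =
          ∑ b, (∑ b', ∑ c, C (B a b' c) * A b' b * q c) * z b +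
            ∑ b', ∑ c, C (B a b' c) * v b' * q c := by
      intro B A v z p q hp a
      have h1 : ∀ b' c, C (B a b' c) * p b' * q c =
          ∑ b, C (B a b' c) * A b' b * q c * z b + C (B a b' c) * v b' * q c := by
        intro b' c
        rw [hp b', mul_add, add_mul, Finset.mul_sum, Finset.sum_mul]
        congr 1
        apply Finset.sum_congr rfl
        intro b _
        ring
      simp only [h1, Finset.sum_add_distrib]
      congr 1
      simp only [Finset.sum_mul]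
      rw [Finset.sum_comm]
      rw [Finset.sum_comm]
      symm
      rw [Finset.sum_comm]
      apply Finset.sum_congr rfl
      intro b' _
      exact Finset.sum_comm
    by_cases hs : ∑ i ∈ I, r' i = 0
    · exact lrep_one h₁ (le_reg_left' _ _) hs rfl (cx_gate B h₁.cx hq0) _
        (key B A₁ v₁ z₁ p q h₁.eq)
    by_cases hr : ∑ i ∈ I, r i = 0
    · rw [reg_comm']
      apply lrep_one h₂ (le_reg_left' _ _) hr (add_comm _ _)
        (cx_gate (fun a b c => B a c b) h₂.cx hp0)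
      intro a
      rw [← key (fun a b c => B a c b) A₂ v₂ z₂ q p h₂.eq a, Finset.sum_comm]
      apply Finset.sum_congr rfl
      intro b _
      apply Finset.sum_congr rfl
      intro c _
      ring
    · apply lrep_both hΨ h₁ h₂ (le_reg_left' _ _) (le_reg_right' _ _) hr hs
      intro S' h1 h2 a
      rw [map_sum]
      refine Subalgebra.sum_mem _ fun b _ => ?_
      rw [map_sum]
      refine Subalgebra.sum_mem _ fun c _ => ?_
      rw [map_mul, map_mul]
      refine Subalgebra.mul_mem _ (Subalgebra.mul_mem _ ?_ (h1 b)) (h2 c)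
      have := Ψ.commutes (B a b c)
      rw [MvPolynomial.algebraMap_eq] at this
      rw [this]
      exact Subalgebra.algebraMap_mem _ _

end

end Pool.Agent.Helper8.RGL
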